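import Mathlib

set_option autoImplicit false

/-!
# Complex space, the unitary group and its Haar measure
-/

open MeasureTheory TopologicalSpace
open scoped ENNReal Pointwise

noncomputable section

namespace Pool.Agent.H61.UProj

/-- Complex `n`-space with its euclidean structure; as a real space it has the inner product
`Re ⟨z, w⟩`. -/
abbrev Cn (n : ℕ) : Type := EuclideanSpace ℂ (Fin n)

/-- The unitary group `U(n)`. -/
abbrev Un (n : ℕ) : Type := Matrix.unitaryGroup (Fin n) ℂ

instance (n : ℕ) : MeasurableSpace (Un n) := borel _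

instance (n : ℕ) : BorelSpace (Un n) := ⟨rfl⟩

instance (n : ℕ) : CompactSpace (Un n) := by
  apply isCompact_iff_compactSpace.1
  have hbox : IsCompact {A : Matrix (Fin n) (Fin n) ℂ | ∀ i j, A i j ∈ Metric.closedBall (0 : ℂ) 1} := by
    have h := isCompact_univ_pi (X := fun _ : Fin n => Fin n → ℂ)
      (s := fun _ => {v : Fin n → ℂ | ∀ j, v j ∈ Metric.closedBall (0 : ℂ) 1})
      (fun _ => by
        have h2 := isCompact_univ_pi (X := fun _ : Fin n => ℂ)
          (s := fun _ => Metric.closedBall (0 : ℂ) 1) (fun _ => isCompact_closedBall _ _)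
        convert! h2 using 1
        ext v
        simp)
    have he : {A : Matrix (Fin n) (Fin n) ℂ | ∀ i j, A i j ∈ Metric.closedBall (0 : ℂ) 1} =
        Set.univ.pi (fun _ : Fin n =>
          {v : Fin n → ℂ | ∀ j, v j ∈ Metric.closedBall (0 : ℂ) 1}) := by
      ext A
      exact ⟨fun hA i _ => hA i, fun hA i => hA i (Set.mem_univ i)⟩
    rw [he]
    exact h
  refine hbox.of_isClosed_subset ?_ ?_
  · have h1 : IsClosed {A : Matrix (Fin n) (Fin n) ℂ | star A * A = 1 ∧ A * star A = 1} := by
      apply IsClosed.and
      · exact isClosed_eq (by fun_prop) continuous_const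
      · exact isClosed_eq (by fun_prop) continuous_const
    convert! h1 using 1
  · intro A hA i j
    rw [mem_closedBall_zero_iff]
    exact entry_norm_bound_of_unitary hA i j

/-- The Haar probability measure on `U(n)`. -/
def haarU (n : ℕ) : Measure (Un n) := Measure.haarMeasure ⊤

instance (n : ℕ) : (haarU n).IsHaarMeasure := by
  unfold haarU; infer_instance

instance (n : ℕ) : IsProbabilityMeasure (haarU n) := by
  refine ⟨?_⟩
  have h := Measure.haarMeasure_self (G := Un n) (K₀ := ⊤)
  simpa [haarU] using h

/-- The projection is the orthogonal one with respect to the real inner product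
`Re ⟨z, w⟩ = Re ∑ conj (z j) * w j`. -/
theorem real_inner_eq {n : ℕ} (z w : Cn n) :
    inner ℝ z w = (∑ j, (starRingEnd ℂ) (z j) * w j).re := by
  simp only [PiLp.inner_apply, Complex.re_sum]
  refine Finset.sum_congr rfl fun j _ => ?_
  rw [Complex.inner, mul_comm]

end Pool.Agent.H61.UProj
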