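import Mathlib
import Pool.Agent.H61.UProj.Base

set_option autoImplicit false

/-!
# Unitarily averaged projections: definitions
-/

open MeasureTheory TopologicalSpace
open scoped ENNReal Pointwise

noncomputable section

namespace Pool.Agent.H61.UProj

/-- The image `φ(E)` of a real subspace under a unitary matrix. -/
def moved {n : ℕ} (φ : Un n) (E : Submodule ℝ (Cn n)) : Submodule ℝ (Cn n) :=
  E.map ((Matrix.toEuclideanLin (φ : Matrix (Fin n) (Fin n) ℂ)).restrictScalars ℝ)

/-- The Lebesgue measure, inside `F`, of the orthogonal projection of `K` onto `F`. -/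
def projVol {n : ℕ} (F : Submodule ℝ (Cn n)) (K : Set (Cn n)) : ℝ≥0∞ :=
  volume ((fun z => F.orthogonalProjectionOnto z) '' K)

/-- The functional `V_E(K)`: the mean of `|K | φ(E)|` over `φ ∈ U(n)`. -/
def VE {n : ℕ} (E : Submodule ℝ (Cn n)) (K : Set (Cn n)) : ℝ≥0∞ :=
  ∫⁻ φ, projVol (moved φ E) K ∂(haarU n)

/-- Convex bodies: compact convex sets with nonempty interior. -/
structure IsConvexBody {n : ℕ} (K : Set (Cn n)) : Prop where
  convex : Convex ℝ K
  compact : IsCompact K
  interior_nonempty : (interior K).Nonempty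

/-- The Brunn-Minkowski property of a real subspace `E` of real dimension `i`. -/
def HasBM {n : ℕ} (E : Submodule ℝ (Cn n)) : Prop :=
  ∀ K L : Set (Cn n), IsConvexBody K → IsConvexBody L →
    (VE E K) ^ (1 / (Module.finrank ℝ E : ℝ)) + (VE E L) ^ (1 / (Module.finrank ℝ E : ℝ)) ≤
      (VE E (K + L)) ^ (1 / (Module.finrank ℝ E : ℝ))


end Pool.Agent.H61.UProj
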