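import Mathlib
import Pool.Agent.H61.UProj.Defs

set_option autoImplicit false

/-!
# Volumes in complex coordinates
-/

open MeasureTheory TopologicalSpace
open scoped ENNReal Pointwise

noncomputable section

namespace Pool.Agent.H61.UProj

theorem projVol_eq {n : ℕ} {H : Type} [NormedAddCommGroup H] [InnerProductSpace ℝ H]
    [FiniteDimensional ℝ H] [MeasurableSpace H] [BorelSpace H] (J : H →ₗᵢ[ℝ] Cn n)
    (A : Cn n → H) (hA : ∀ y z, inner ℝ (J y) z = inner ℝ y (A z)) (F : Submodule ℝ (Cn n))
    (hF : F = LinearMap.range J.toLinearMap) (K : Set (Cn n)) :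
    projVol F K = volume (A '' K) := by
  subst hF
  let e : H ≃ₗᵢ[ℝ] LinearMap.range J.toLinearMap := J.equivRange
  have he : ∀ y, ((e y : LinearMap.range J.toLinearMap) : Cn n) = J y := fun y => rfl
  have hP : ∀ z, (LinearMap.range J.toLinearMap).orthogonalProjectionOnto z = e (A z) := by
    intro z
    apply Subtype.ext
    refine Submodule.eq_starProjection_of_mem_of_inner_eq_zero ?_ ?_
    · exact (e (A z)).2
    · rintro w ⟨y, rfl⟩
      rw [he, inner_sub_left]
      have h1 : inner ℝ z (J.toLinearMap y) = inner ℝ (A z) y := by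
        rw [real_inner_comm, LinearIsometry.coe_toLinearMap, hA, real_inner_comm]
      have h2 : inner ℝ (J (A z)) (J.toLinearMap y) = inner ℝ (A z) y := by
        rw [LinearIsometry.coe_toLinearMap, LinearIsometry.inner_map_map]
      rw [h1, h2, sub_self]
  unfold projVol
  have h1 : (fun z => (LinearMap.range J.toLinearMap).orthogonalProjectionOnto z) '' K =
      e '' (A '' K) := by
    rw [← Set.image_comp]
    exact Set.image_congr fun z _ => hP z
  rw [h1]
  have h3 : MeasurePreserving e volume volume :=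
    @LinearIsometryEquiv.measurePreserving H (LinearMap.range J.toLinearMap) _ _ _ _ _ _ _ _ _ _ e
  have h4 := h3.measure_preimage_emb e.toHomeomorph.measurableEmbedding (e '' (A '' K))
  rw [Set.preimage_image_eq _ e.injective] at h4
  exact h4.symm

theorem volume_preserving_ofLp (ι : Type) [Fintype ι] :
    MeasurePreserving (WithLp.ofLp : EuclideanSpace ℂ ι → (ι → ℂ)) volume volume := by
  classical
  let b := Pi.orthonormalBasis (fun _ : ι => Complex.orthonormalBasisOneI)
  let e : EuclideanSpace ℂ ι ≃L[ℝ] (ι → ℂ) := PiLp.continuousLinearEquiv 2 ℝ (fun _ : ι => ℂ)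
  refine ⟨e.continuous.measurable, ?_⟩
  change Measure.map e volume = volume
  rw [← b.addHaar_eq_volume, Module.Basis.map_addHaar, Module.Basis.addHaar_eq_iff,
    Module.Basis.coe_parallelepiped, parallelepiped_basis_eq]
  have h1 : {x : ι → ℂ | ∀ i, (b.toBasis.map e.toLinearEquiv).repr x i ∈ Set.Icc (0 : ℝ) 1} =
      Set.pi Set.univ (fun _ : ι => parallelepiped Complex.orthonormalBasisOneI) := by
    have h2 : parallelepiped Complex.orthonormalBasisOneI =
        {x : ℂ | ∀ i, Complex.orthonormalBasisOneI.toBasis.repr x i ∈ Set.Icc (0 : ℝ) 1} := by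
      rw [← parallelepiped_basis_eq, OrthonormalBasis.coe_toBasis]
    rw [h2]
    ext x
    simp only [Set.mem_ofPred_eq, Set.mem_pi, Set.mem_univ, true_imp_iff]
    constructor
    · intro h i k
      exact h ⟨i, k⟩
    · rintro h ⟨i, k⟩
      exact h i k
  rw [h1, volume_pi_pi]
  exact Finset.prod_eq_one fun _ _ => Complex.orthonormalBasisOneI.volume_parallelepiped

/-- The closed polydisc. -/
def poly {ι : Type} (r : ι → ℝ) : Set (EuclideanSpace ℂ ι) := {z | ∀ j, ‖z j‖ ≤ r j}

theorem volume_poly {ι : Type} [Fintype ι] (r : ι → ℝ) :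
    volume (poly r) = ∏ j, (ENNReal.ofReal (r j) ^ 2 * NNReal.pi) := by
  have h1 : poly r = WithLp.ofLp ⁻¹' (Set.pi Set.univ fun j => Metric.closedBall (0 : ℂ) (r j)) := by
    ext z
    simp [poly]
  rw [h1, (volume_preserving_ofLp ι).measure_preimage
    (MeasurableSet.univ_pi fun _ => Metric.isClosed_closedBall.measurableSet).nullMeasurableSet,
    volume_pi_pi]
  simp only [Complex.volume_closedBall]

theorem isCompact_poly {ι : Type} [Fintype ι] (r : ι → ℝ) : IsCompact (poly r) := by
  have h1 : poly r = (PiLp.continuousLinearEquiv 2 ℝ (fun _ : ι => ℂ)).toHomeomorph ⁻¹'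
      (Set.pi Set.univ fun j => Metric.closedBall (0 : ℂ) (r j)) := by
    ext z
    simp [poly]
  rw [h1]
  rw [Homeomorph.isCompact_preimage]
  exact isCompact_univ_pi fun _ => isCompact_closedBall _ _

/-- Splitting off the first coordinate. -/
theorem volume_head_tail {m : ℕ} (t : ℝ) (S : Set (EuclideanSpace ℂ (Fin m)))
    (hS : MeasurableSet S) :
    volume {y : EuclideanSpace ℂ (Fin (m + 1)) | ‖y 0‖ ≤ t ∧
      WithLp.toLp 2 (fun i : Fin m => y i.succ) ∈ S} =
      (ENNReal.ofReal t ^ 2 * NNReal.pi) * volume S := by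
  let S' : Set (Fin m → ℂ) := WithLp.toLp 2 ⁻¹' S
  have hS' : MeasurableSet S' := (WithLp.measurable_toLp 2 _) hS
  have h1 : {y : EuclideanSpace ℂ (Fin (m + 1)) | ‖y 0‖ ≤ t ∧
      WithLp.toLp 2 (fun i : Fin m => y i.succ) ∈ S} =
      WithLp.ofLp ⁻¹' ((MeasurableEquiv.piFinSuccAbove (fun _ : Fin (m + 1) => ℂ) 0) ⁻¹'
        (Metric.closedBall (0 : ℂ) t ×ˢ S')) := by
    ext y
    simp only [Set.mem_ofPred_eq, Set.mem_preimage, Set.mem_prod, mem_closedBall_zero_iff]
    rfl
  rw [h1, (volume_preserving_ofLp (Fin (m + 1))).measure_preimage,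
    (volume_preserving_piFinSuccAbove (fun _ : Fin (m + 1) => ℂ) 0).measure_preimage]
  · rw [Measure.volume_eq_prod, Measure.prod_prod, Complex.volume_closedBall]
    congr 1
    have h2 : S = WithLp.ofLp ⁻¹' S' := by
      ext y
      simp [S']
    conv_rhs => rw [h2]
    rw [(volume_preserving_ofLp (Fin m)).measure_preimage hS'.nullMeasurableSet]
  · exact (Metric.isClosed_closedBall.measurableSet.prod hS').nullMeasurableSet
  · exact ((MeasurableEquiv.measurable _)
      (Metric.isClosed_closedBall.measurableSet.prod hS')).nullMeasurableSet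

/-- Volumes of images under complex linear maps. -/
theorem volume_image_linear {k : ℕ} (T : Matrix (Fin k) (Fin k) ℂ)
    (S : Set (EuclideanSpace ℂ (Fin k))) :
    volume (Matrix.toEuclideanLin T '' S) = ENNReal.ofReal (‖T.det‖ ^ 2) * volume S := by
  have h := Measure.addHaar_image_linearMap (volume : Measure (EuclideanSpace ℂ (Fin k)))
    ((Matrix.toEuclideanLin T).restrictScalars ℝ) S
  rw [LinearMap.coe_restrictScalars] at h
  rw [h]
  have h2 : LinearMap.det ((Matrix.toEuclideanLin T).restrictScalars ℝ) = ‖T.det‖ ^ 2 := by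
    rw [LinearMap.det_restrictScalars, Algebra.norm_complex_apply, Complex.normSq_eq_norm_sq]
    congr 2
    rw [Matrix.toEuclideanLin_eq_toLin_orthonormal, LinearMap.det_toLin]
  rw [h2, abs_of_nonneg (by positivity)]

end Pool.Agent.H61.UProj
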