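import Mathlib
import Pool.Agent.H61.UProj.Vol

set_option autoImplicit false

/-!
# Volumes of linear images of polydiscs
-/

open MeasureTheory TopologicalSpace Filter Topology
open scoped ENNReal Pointwise Matrix

noncomputable section

namespace Pool.Agent.H61.UProj

/-- The linear map of a matrix. -/
abbrev ap {k n : ℕ} (A : Matrix (Fin k) (Fin n) ℂ) (z : Cn n) : Cn k := Matrix.toEuclideanLin A z

theorem ap_apply {k n : ℕ} (A : Matrix (Fin k) (Fin n) ℂ) (z : Cn n) (j : Fin k) :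
    ap A z j = ∑ l, A j l * z l := rfl

theorem ap_mul {k k' n : ℕ} (B : Matrix (Fin k') (Fin k) ℂ) (A : Matrix (Fin k) (Fin n) ℂ)
    (z : Cn n) : ap (B * A) z = ap B (ap A z) := by
  ext j
  simp only [ap_apply, Matrix.mul_apply, Finset.mul_sum, Finset.sum_mul]
  rw [Finset.sum_comm]
  refine Finset.sum_congr rfl fun a _ => Finset.sum_congr rfl fun b _ => ?_
  ring

theorem ap_image_mul {k k' n : ℕ} (B : Matrix (Fin k') (Fin k) ℂ) (A : Matrix (Fin k) (Fin n) ℂ)
    (S : Set (Cn n)) : ap (B * A) '' S = ap B '' (ap A '' S) := by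
  rw [← Set.image_comp]
  exact Set.image_congr fun z _ => ap_mul B A z

theorem continuous_ap {k n : ℕ} (A : Matrix (Fin k) (Fin n) ℂ) : Continuous (ap A) :=
  LinearMap.continuous_of_finiteDimensional _

theorem lower {k n : ℕ} (A : Matrix (Fin k) (Fin n) ℂ) (ι : Fin k → Fin n)
    (hι : Function.Injective ι) (r : Fin n → ℝ) (hr : ∀ l, 0 ≤ r l) :
    ENNReal.ofReal (‖(A.submatrix id ι).det‖ ^ 2) *
      ∏ j, (ENNReal.ofReal (r (ι j)) ^ 2 * NNReal.pi) ≤ volume (ap A '' poly r) := by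
  rw [← volume_poly (fun j => r (ι j)), ← volume_image_linear]
  apply measure_mono
  rintro _ ⟨y, hy, rfl⟩
  classical
  let z : Cn n := WithLp.toLp 2 (fun l => if h : ∃ j, ι j = l then y h.choose else 0)
  have hz : ∀ j, z (ι j) = y j := by
    intro j
    have h : ∃ j', ι j' = ι j := ⟨j, rfl⟩
    have h2 : h.choose = j := hι h.choose_spec
    simp only [z]
    rw [dif_pos h, h2]
  have hz0 : ∀ l, l ∉ Set.range ι → z l = 0 := by
    intro l hl
    simp only [z]
    rw [dif_neg]
    exact hl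
  refine ⟨z, fun l => ?_, ?_⟩
  · by_cases hl : l ∈ Set.range ι
    · obtain ⟨j, rfl⟩ := hl
      rw [hz]
      exact hy j
    · rw [hz0 l hl, norm_zero]
      exact hr l
  · ext j
    rw [ap_apply]
    change _ = ∑ i, A j (ι i) * y i
    symm
    apply Fintype.sum_of_injective ι hι
    · intro l hl
      rw [hz0 l hl, mul_zero]
    · intro i
      rw [hz]

theorem norm_le_sum {m : ℕ} (v : Cn m) : ‖v‖ ≤ ∑ j, ‖v j‖ := by
  have h : v = ∑ j, (v j) • (EuclideanSpace.basisFun (Fin m) ℂ j) := by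
    exact ((EuclideanSpace.basisFun (Fin m) ℂ).sum_repr v).symm
  calc ‖v‖ = ‖∑ j, (v j) • (EuclideanSpace.basisFun (Fin m) ℂ j)‖ := by rw [← h]
    _ ≤ ∑ j, ‖(v j) • (EuclideanSpace.basisFun (Fin m) ℂ j)‖ := norm_sum_le _ _
    _ = ∑ j, ‖v j‖ := by
      refine Finset.sum_congr rfl fun j _ => ?_
      rw [norm_smul, OrthonormalBasis.norm_eq_one, mul_one]

theorem exists_unitary {m n : ℕ} (A : Matrix (Fin (m + 1)) (Fin n) ℂ) (js : Fin m → Fin n) :
    ∃ Q : Matrix (Fin (m + 1)) (Fin (m + 1)) ℂ, Q * Qᴴ = 1 ∧ ∀ i, (Q * A) 0 (js i) = 0 := by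
  let w : Fin m → Cn (m + 1) := fun i => WithLp.toLp 2 (fun k => A k (js i))
  let W : Submodule ℂ (Cn (m + 1)) := Submodule.span ℂ (Set.range w)
  have hW : Module.finrank ℂ W ≤ m := by
    have := finrank_range_le_card (R := ℂ) w
    rw [Fintype.card_fin] at this
    exact this
  have hperp : 0 < Module.finrank ℂ Wᗮ := by
    have h := W.finrank_add_finrank_orthogonal
    rw [finrank_euclideanSpace_fin] at h
    omega
  have hne : Nontrivial Wᗮ := Module.finrank_pos_iff.1 hperp
  obtain ⟨⟨f, hf⟩, hf1⟩ := exists_norm_eq (Wᗮ) (zero_le_one)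
  have hfn : ‖f‖ = 1 := hf1
  have hon : Orthonormal ℂ (Set.domRestrict ({0} : Set (Fin (m + 1))) (fun _ => f)) := by
    constructor
    · intro i; exact hfn
    · rintro ⟨i, hi⟩ ⟨j, hj⟩ hij
      exfalso
      apply hij
      apply Subtype.ext
      rw [Set.mem_singleton_iff] at hi hj
      exact hi.trans hj.symm
  obtain ⟨b, hb⟩ := hon.exists_orthonormalBasis_extension_of_card_eq (by simp)
  have hb0 : b 0 = f := hb 0 rfl
  refine ⟨Matrix.of fun j k => star (b j k), ?_, ?_⟩
  · ext j j'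
    rw [Matrix.mul_apply, Matrix.one_apply]
    have h := orthonormal_iff_ite.1 b.orthonormal j j'
    rw [← h, PiLp.inner_apply]
    refine Finset.sum_congr rfl fun k _ => ?_
    simp [Matrix.conjTranspose_apply, mul_comm]
  · intro i
    rw [Matrix.mul_apply]
    have h : inner ℂ f (w i) = 0 := by
      have hwi : w i ∈ W := Submodule.subset_span ⟨i, rfl⟩
      exact Submodule.inner_left_of_mem_orthogonal hwi hf
    rw [← h, ← hb0, PiLp.inner_apply]
    refine Finset.sum_congr rfl fun k _ => ?_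
    simp [w, mul_comm]

end Pool.Agent.H61.UProj
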