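import Mathlib
import Pool.Agent.H61.UProj.Geom

set_option autoImplicit false

/-!
# Upper bounds for the volume of linear images of thin polydiscs
-/

open MeasureTheory TopologicalSpace Filter Topology
open scoped ENNReal Pointwise Matrix

noncomputable section

namespace Pool.Agent.H61.UProj

theorem det_zero_row {m n : ℕ} (N : Matrix (Fin (m + 1)) (Fin n) ℂ) (js : Fin m → Fin n)
    (hN : ∀ i, N 0 (js i) = 0) (i : Fin n) :
    (N.submatrix id (Fin.cons i js : Fin (m + 1) → Fin n)).det =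
      N 0 i * (N.submatrix Fin.succ js).det := by
  rw [Matrix.det_succ_row_zero, Fin.sum_univ_succ]
  have h0 : ∀ j : Fin m, (N.submatrix id (Fin.cons i js : Fin (m + 1) → Fin n)) 0 j.succ = 0 := by
    intro j
    simp [hN]
  simp only [h0, mul_zero, zero_mul, Finset.sum_const_zero, add_zero]
  simp only [Fin.val_zero, pow_zero, one_mul]
  congr 2

section

open Classical in
/-- The radii of the sum of the two test polydiscs. -/
def radS {m n : ℕ} (i0 i1 : Fin n) (js : Fin m → Fin n) (δ : ℝ) (l : Fin n) : ℝ :=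
  if l = i0 ∨ l = i1 then δ + δ ^ 2 else if l ∈ Set.range js then 2 else 2 * δ ^ 2

variable {m n : ℕ} {i0 i1 : Fin n} {js : Fin m → Fin n}

theorem radS_le {δ : ℝ} (hδ0 : 0 ≤ δ) (hδ1 : δ ≤ 1) (l : Fin n)
    (hl : l ∉ Set.range js) : radS i0 i1 js δ l ≤ 2 * δ := by
  unfold radS
  split_ifs
  · nlinarith
  · nlinarith

theorem radS_le_two {δ : ℝ} (hδ0 : 0 ≤ δ) (hδ1 : δ ≤ 1) (l : Fin n) :
    radS i0 i1 js δ l ≤ 2 := by
  unfold radS
  split_ifs
  · nlinarith
  · exact le_rfl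
  · nlinarith

/-- The first constant. -/
def C1 (m n : ℕ) : ℝ := n * (2 * (m + 1))

/-- The second constant. -/
def C2 (m n : ℕ) : ℝ := m * (n * (2 * (m + 1)))

theorem C1_nonneg (m n : ℕ) : 0 ≤ C1 m n := by unfold C1; positivity

theorem C2_nonneg (m n : ℕ) : 0 ≤ C2 m n := by unfold C2; positivity

theorem head_bound {N : Matrix (Fin (m + 1)) (Fin n) ℂ} (hN : ∀ j l, ‖N j l‖ ≤ m + 1)
    (hN0 : ∀ i, N 0 (js i) = 0) {δ : ℝ} (hδ0 : 0 ≤ δ) {z : Cn n}
    (hz : z ∈ poly (radS i0 i1 js δ)) :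
    ‖ap N z 0‖ ≤ δ * (‖N 0 i0‖ + ‖N 0 i1‖) + C1 m n * δ ^ 2 := by
  classical
  rw [ap_apply]
  have h1 : ∀ l, ‖N 0 l * z l‖ ≤ (if l = i0 then δ * ‖N 0 i0‖ else 0) +
      (if l = i1 then δ * ‖N 0 i1‖ else 0) + 2 * (m + 1) * δ ^ 2 := by
    intro l
    have hzl : ‖z l‖ ≤ radS i0 i1 js δ l := hz l
    have hNl := hN 0 l
    have hpos : 0 ≤ 2 * ((m : ℝ) + 1) * δ ^ 2 := by positivity
    have hN0' := norm_nonneg (N 0 l)
    rw [norm_mul]
    by_cases hl0 : l = i0
    · subst hl0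
      unfold radS at hzl
      rw [if_pos (Or.inl rfl)] at hzl
      rw [if_pos rfl]
      have h2 : 0 ≤ (if l = i1 then δ * ‖N 0 i1‖ else 0) := by split_ifs <;> positivity
      have h3 : ‖N 0 l‖ * ‖z l‖ ≤ ‖N 0 l‖ * (δ + δ ^ 2) := mul_le_mul_of_nonneg_left hzl hN0'
      have h4 : ‖N 0 l‖ * δ ^ 2 ≤ (m + 1) * δ ^ 2 := mul_le_mul_of_nonneg_right hNl (by positivity)
      nlinarith
    · by_cases hl1 : l = i1
      · subst hl1
        unfold radS at hzl
        rw [if_pos (Or.inr rfl)] at hzl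
        rw [if_neg hl0, if_pos rfl]
        have h3 : ‖N 0 l‖ * ‖z l‖ ≤ ‖N 0 l‖ * (δ + δ ^ 2) := mul_le_mul_of_nonneg_left hzl hN0'
        have h4 : ‖N 0 l‖ * δ ^ 2 ≤ (m + 1) * δ ^ 2 :=
          mul_le_mul_of_nonneg_right hNl (by positivity)
        nlinarith
      · rw [if_neg hl0, if_neg hl1]
        by_cases hlj : l ∈ Set.range js
        · obtain ⟨i, rfl⟩ := hlj
          rw [hN0 i, norm_zero, zero_mul]
          linarith
        · unfold radS at hzl
          rw [if_neg (by tauto), if_neg hlj] at hzl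
          have h3 : ‖N 0 l‖ * ‖z l‖ ≤ (m + 1) * (2 * δ ^ 2) :=
            mul_le_mul hNl hzl (norm_nonneg _) (by positivity)
          nlinarith
  refine (norm_sum_le _ _).trans ((Finset.sum_le_sum fun l _ => h1 l).trans ?_)
  rw [Finset.sum_add_distrib, Finset.sum_add_distrib, Finset.sum_ite_eq' Finset.univ i0,
    Finset.sum_ite_eq' Finset.univ i1, if_pos (Finset.mem_univ _), if_pos (Finset.mem_univ _),
    Finset.sum_const, Finset.card_univ, Fintype.card_fin, nsmul_eq_mul]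
  unfold C1
  apply le_of_eq
  ring

theorem tail_mem {N : Matrix (Fin (m + 1)) (Fin n) ℂ} (hN : ∀ j l, ‖N j l‖ ≤ m + 1)
    (hjs : Function.Injective js) {δ : ℝ} (hδ0 : 0 ≤ δ) (hδ1 : δ ≤ 1) {z : Cn n}
    (hz : z ∈ poly (radS i0 i1 js δ)) :
    (WithLp.toLp 2 (fun i : Fin m => ap N z i.succ) : Cn m) ∈
      Metric.cthickening (C2 m n * δ) (ap (N.submatrix Fin.succ js) '' poly (fun _ => (2 : ℝ))) := by
  classical
  let z' : Cn m := WithLp.toLp 2 (fun i => z (js i))
  have hz' : z' ∈ poly (fun _ : Fin m => (2 : ℝ)) := by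
    intro i
    exact (hz (js i)).trans (radS_le_two hδ0 hδ1 _)
  refine Metric.mem_cthickening_of_dist_le _ (ap (N.submatrix Fin.succ js) z') _ _
    ⟨z', hz', rfl⟩ ?_
  rw [dist_eq_norm]
  refine (norm_le_sum _).trans ?_
  have hcomp : ∀ j : Fin m, ‖((WithLp.toLp 2 (fun i : Fin m => ap N z i.succ) : Cn m) -
      ap (N.submatrix Fin.succ js) z') j‖ ≤ n * (2 * (m + 1)) * δ := by
    intro j
    have e1 : ((WithLp.toLp 2 (fun i : Fin m => ap N z i.succ) : Cn m) -
        ap (N.submatrix Fin.succ js) z') j =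
        ∑ l, (if l ∈ Set.range js then 0 else N j.succ l * z l) := by
      have e2 : ∑ i, N j.succ (js i) * z (js i) =
          ∑ l, (if l ∈ Set.range js then N j.succ l * z l else 0) := by
        apply Fintype.sum_of_injective js hjs
        · intro l hl
          rw [if_neg hl]
        · intro i
          rw [if_pos ⟨i, rfl⟩]
      have e3 : ((WithLp.toLp 2 (fun i : Fin m => ap N z i.succ) : Cn m) -
        ap (N.submatrix Fin.succ js) z') j =
          (∑ l, N j.succ l * z l) - ∑ i, N j.succ (js i) * z (js i) := rfl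
      rw [e3, e2, ← Finset.sum_sub_distrib]
      refine Finset.sum_congr rfl fun l _ => ?_
      split_ifs <;> simp
    rw [e1]
    refine (norm_sum_le _ _).trans ?_
    have e4 : ∀ l ∈ Finset.univ, ‖(if l ∈ Set.range js then 0 else N j.succ l * z l)‖ ≤
        2 * (m + 1) * δ := by
      intro l _
      split_ifs with hl
      · rw [norm_zero]; positivity
      · rw [norm_mul]
        have e5 : ‖z l‖ ≤ 2 * δ := (hz l).trans (radS_le hδ0 hδ1 l hl)
        have e6 : ‖N j.succ l‖ * ‖z l‖ ≤ (m + 1) * (2 * δ) :=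
          mul_le_mul (hN _ _) e5 (norm_nonneg _) (by positivity)
        nlinarith
    refine (Finset.sum_le_card_nsmul _ _ _ e4).trans ?_
    rw [Finset.card_univ, Fintype.card_fin, nsmul_eq_mul]
    apply le_of_eq
    ring
  refine (Finset.sum_le_card_nsmul _ _ _ fun j _ => hcomp j).trans ?_
  rw [Finset.card_univ, Fintype.card_fin, nsmul_eq_mul]
  unfold C2
  apply le_of_eq
  ring

theorem norm_mul_entry_le {A : Matrix (Fin (m + 1)) (Fin n) ℂ} (hA : ∀ j l, ‖A j l‖ ≤ 1)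
    {Q : Matrix (Fin (m + 1)) (Fin (m + 1)) ℂ} (hQ : Q * Qᴴ = 1) (j : Fin (m + 1)) (l : Fin n) :
    ‖(Q * A) j l‖ ≤ m + 1 := by
  have hQ' : ∀ i k, ‖Q i k‖ ≤ 1 := fun i k =>
    entry_norm_bound_of_unitary (Matrix.mem_unitaryGroup_iff.2 hQ) i k
  rw [Matrix.mul_apply]
  refine (norm_sum_le _ _).trans ?_
  have h : ∀ k ∈ Finset.univ, ‖Q j k * A k l‖ ≤ 1 := by
    intro k _
    rw [norm_mul]
    exact mul_le_one₀ (hQ' j k) (norm_nonneg _) (hA k l)
  refine (Finset.sum_le_card_nsmul _ _ _ h).trans ?_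
  rw [Finset.card_univ, Fintype.card_fin, nsmul_eq_mul]
  push_cast
  linarith

theorem volume_unitary_image {Q : Matrix (Fin (m + 1)) (Fin (m + 1)) ℂ} (hQ : Q * Qᴴ = 1)
    (S : Set (Cn (m + 1))) : volume (ap Q '' S) = volume S := by
  have h := volume_image_linear Q S
  have hd : ‖Q.det‖ ^ 2 = 1 := by
    have h2 := congrArg Matrix.det hQ
    rw [Matrix.det_mul, Matrix.det_conjTranspose, Matrix.det_one] at h2
    have h3 : ‖Q.det * star Q.det‖ = 1 := by rw [h2, norm_one]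
    rw [norm_mul, norm_star] at h3
    rw [sq]
    exact h3
  rw [hd, ENNReal.ofReal_one, one_mul] at h
  exact h

theorem norm_det_eq {A : Matrix (Fin (m + 1)) (Fin n) ℂ}
    {Q : Matrix (Fin (m + 1)) (Fin (m + 1)) ℂ} (hQ : Q * Qᴴ = 1)
    (hQ0 : ∀ i, (Q * A) 0 (js i) = 0) (i : Fin n) :
    ‖(A.submatrix id (Fin.cons i js : Fin (m + 1) → Fin n)).det‖ =
      ‖(Q * A) 0 i‖ * ‖((Q * A).submatrix Fin.succ js).det‖ := by
  have hd : ‖Q.det‖ = 1 := by
    have h2 := congrArg Matrix.det hQ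
    rw [Matrix.det_mul, Matrix.det_conjTranspose, Matrix.det_one] at h2
    have h3 : ‖Q.det * star Q.det‖ = 1 := by rw [h2, norm_one]
    rw [norm_mul, norm_star] at h3
    nlinarith [norm_nonneg Q.det]
  have h1 := det_zero_row (Q * A) js hQ0 i
  have h2 : (Q * A).submatrix id (Fin.cons i js : Fin (m + 1) → Fin n) =
      Q * A.submatrix id (Fin.cons i js : Fin (m + 1) → Fin n) := by
    ext a b
    simp [Matrix.mul_apply]
  rw [h2, Matrix.det_mul] at h1
  have h3 := congrArg norm h1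
  rw [norm_mul, norm_mul, hd, one_mul] at h3
  exact h3

end

end Pool.Agent.H61.UProj
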