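import Mathlib
import Pool.Agent.H61.UProj.Upper

set_option autoImplicit false

/-!
# The limit of the normalised volumes
-/

open MeasureTheory TopologicalSpace Filter Topology
open scoped ENNReal Pointwise Matrix

noncomputable section

namespace Pool.Agent.H61.UProj

variable {m n : ℕ} {i0 i1 : Fin n} {js : Fin m → Fin n}

theorem volume_le {A : Matrix (Fin (m + 1)) (Fin n) ℂ} (hA : ∀ j l, ‖A j l‖ ≤ 1)
    (hjs : Function.Injective js)
    {Q : Matrix (Fin (m + 1)) (Fin (m + 1)) ℂ} (hQ : Q * Qᴴ = 1)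
    (hQ0 : ∀ i, (Q * A) 0 (js i) = 0) {δ : ℝ} (hδ0 : 0 ≤ δ) (hδ1 : δ ≤ 1) :
    volume (ap A '' poly (radS i0 i1 js δ)) ≤
      (ENNReal.ofReal (δ * (‖(Q * A) 0 i0‖ + ‖(Q * A) 0 i1‖) + C1 m n * δ ^ 2) ^ 2 * NNReal.pi) *
        volume (Metric.cthickening (C2 m n * δ)
          (ap ((Q * A).submatrix Fin.succ js) '' poly (fun _ => (2 : ℝ)))) := by
  rw [← volume_unitary_image hQ, ← ap_image_mul, ← volume_head_tail _ _
    Metric.isClosed_cthickening.measurableSet]
  apply measure_mono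
  rintro _ ⟨z, hz, rfl⟩
  exact ⟨head_bound (norm_mul_entry_le hA hQ) hQ0 hδ0 hz,
    tail_mem (norm_mul_entry_le hA hQ) hjs hδ0 hδ1 hz⟩

/-- A bound for the volume of the base. -/
def base (m n : ℕ) : ℝ≥0∞ :=
  volume (Metric.closedBall (0 : Cn m) (C2 m n + m * (m * (2 * (m + 1)))))

theorem base_lt_top (m n : ℕ) : base m n < ∞ := measure_closedBall_lt_top

theorem cthickening_subset {N : Matrix (Fin (m + 1)) (Fin n) ℂ} (hN : ∀ j l, ‖N j l‖ ≤ m + 1)
    {δ : ℝ} (hδ1 : δ ≤ 1) :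
    Metric.cthickening (C2 m n * δ) (ap (N.submatrix Fin.succ js) '' poly (fun _ => (2 : ℝ))) ⊆
      Metric.closedBall (0 : Cn m) (C2 m n + m * (m * (2 * (m + 1)))) := by
  have hC2 := C2_nonneg m n
  rw [← cthickening_closedBall hC2 (by positivity)]
  refine (Metric.cthickening_mono (by nlinarith) _).trans (Metric.cthickening_subset_of_subset _ ?_)
  rintro _ ⟨x, hx, rfl⟩
  rw [mem_closedBall_zero_iff]
  refine (norm_le_sum _).trans ?_
  have h1 : ∀ j ∈ Finset.univ, ‖ap (N.submatrix Fin.succ js) x j‖ ≤ m * (2 * (m + 1)) := by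
    intro j _
    rw [ap_apply]
    refine (norm_sum_le _ _).trans ?_
    have h2 : ∀ l ∈ Finset.univ, ‖(N.submatrix Fin.succ js) j l * x l‖ ≤ 2 * (m + 1) := by
      intro l _
      rw [norm_mul]
      have h3 : ‖(N.submatrix Fin.succ js) j l‖ ≤ m + 1 := hN _ _
      have h4 : ‖x l‖ ≤ 2 := hx l
      calc ‖(N.submatrix Fin.succ js) j l‖ * ‖x l‖ ≤ (m + 1) * 2 :=
            mul_le_mul h3 h4 (norm_nonneg _) (by positivity)
        _ = 2 * (m + 1) := by ring
    refine (Finset.sum_le_card_nsmul _ _ _ h2).trans ?_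
    rw [Finset.card_univ, Fintype.card_fin, nsmul_eq_mul]
  refine (Finset.sum_le_card_nsmul _ _ _ h1).trans ?_
  rw [Finset.card_univ, Fintype.card_fin, nsmul_eq_mul]

/-- The uniform constant. -/
def Cst (m n : ℕ) : ℝ≥0∞ :=
  ENNReal.ofReal (2 * (m + 1) + C1 m n) ^ 2 * NNReal.pi * base m n

theorem Cst_lt_top (m n : ℕ) : Cst m n < ∞ := by
  unfold Cst
  refine ENNReal.mul_lt_top (ENNReal.mul_lt_top ?_ ENNReal.coe_lt_top) (base_lt_top m n)
  exact ENNReal.pow_lt_top ENNReal.ofReal_lt_top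

theorem volume_le_uniform {A : Matrix (Fin (m + 1)) (Fin n) ℂ} (hA : ∀ j l, ‖A j l‖ ≤ 1)
    (hjs : Function.Injective js) {δ : ℝ} (hδ0 : 0 ≤ δ) (hδ1 : δ ≤ 1) :
    volume (ap A '' poly (radS i0 i1 js δ)) ≤ ENNReal.ofReal δ ^ 2 * Cst m n := by
  obtain ⟨Q, hQ, hQ0⟩ := exists_unitary A js
  refine (volume_le hA hjs hQ hQ0 hδ0 hδ1).trans ?_
  have hN := norm_mul_entry_le hA hQ
  have h1 : volume (Metric.cthickening (C2 m n * δ)
      (ap ((Q * A).submatrix Fin.succ js) '' poly (fun _ => (2 : ℝ)))) ≤ base m n :=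
    measure_mono (cthickening_subset hN hδ1)
  have h2 : ENNReal.ofReal (δ * (‖(Q * A) 0 i0‖ + ‖(Q * A) 0 i1‖) + C1 m n * δ ^ 2) ≤
      ENNReal.ofReal δ * ENNReal.ofReal (2 * (m + 1) + C1 m n) := by
    rw [← ENNReal.ofReal_mul hδ0]
    apply ENNReal.ofReal_le_ofReal
    have h3 := hN 0 i0
    have h4 := hN 0 i1
    have h5 := C1_nonneg m n
    have h6 : C1 m n * δ ^ 2 ≤ C1 m n * δ := by
      apply mul_le_mul_of_nonneg_left _ h5
      nlinarith
    nlinarith
  calc _ ≤ ((ENNReal.ofReal δ * ENNReal.ofReal (2 * (m + 1) + C1 m n)) ^ 2 * NNReal.pi) *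
        base m n := by gcongr
    _ = ENNReal.ofReal δ ^ 2 * Cst m n := by
      unfold Cst
      ring

theorem limsup_volume_le {A : Matrix (Fin (m + 1)) (Fin n) ℂ} (hA : ∀ j l, ‖A j l‖ ≤ 1)
    (hjs : Function.Injective js) (d : ℕ → ℝ) (hd0 : ∀ N, 0 < d N) (hd1 : ∀ N, d N ≤ 1)
    (hd : Tendsto d atTop (𝓝 0)) :
    limsup (fun N => volume (ap A '' poly (radS i0 i1 js (d N))) / ENNReal.ofReal (d N) ^ 2) atTop ≤
      ENNReal.ofReal ((‖(A.submatrix id (Fin.cons i0 js : Fin (m + 1) → Fin n)).det‖ +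
        ‖(A.submatrix id (Fin.cons i1 js : Fin (m + 1) → Fin n)).det‖) ^ 2) *
        (NNReal.pi * (ENNReal.ofReal 2 ^ 2 * NNReal.pi) ^ m) := by
  obtain ⟨Q, hQ, hQ0⟩ := exists_unitary A js
  set a := ‖(Q * A) 0 i0‖
  set b := ‖(Q * A) 0 i1‖
  set T := (Q * A).submatrix Fin.succ js
  have ha : 0 ≤ a := norm_nonneg _
  have hb : 0 ≤ b := norm_nonneg _
  have hC1 := C1_nonneg m n
  let g : ℕ → ℝ≥0∞ := fun N => (ENNReal.ofReal ((a + b) + C1 m n * d N) ^ 2 * NNReal.pi) *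
    volume (Metric.cthickening (C2 m n * d N) (ap T '' poly (fun _ => (2 : ℝ))))
  have hle : ∀ N, volume (ap A '' poly (radS i0 i1 js (d N))) / ENNReal.ofReal (d N) ^ 2 ≤ g N := by
    intro N
    have hpos : ENNReal.ofReal (d N) ≠ 0 := by
      rw [Ne, ENNReal.ofReal_eq_zero, not_le]; exact hd0 N
    apply ENNReal.div_le_of_le_mul
    refine (volume_le hA hjs hQ hQ0 (hd0 N).le (hd1 N)).trans (le_of_eq ?_)
    simp only [g]
    have h1 : d N * (a + b) + C1 m n * d N ^ 2 = d N * ((a + b) + C1 m n * d N) := by ring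
    change (ENNReal.ofReal (d N * (a + b) + C1 m n * d N ^ 2) ^ 2 * NNReal.pi) * _ = _
    rw [h1, ENNReal.ofReal_mul (hd0 N).le]
    ring
  have hT : IsCompact (ap T '' poly (fun _ : Fin m => (2 : ℝ))) :=
    (isCompact_poly _).image (continuous_ap T)
  have hlim : Tendsto g atTop (𝓝 ((ENNReal.ofReal (a + b) ^ 2 * NNReal.pi) *
      volume (ap T '' poly (fun _ => (2 : ℝ))))) := by
    apply ENNReal.Tendsto.mul
    · apply ENNReal.Tendsto.mul_const
      · have h1 : Tendsto (fun N => (a + b) + C1 m n * d N) atTop (𝓝 ((a + b) + C1 m n * 0)) :=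
          tendsto_const_nhds.add (hd.const_mul _)
        rw [mul_zero, add_zero] at h1
        exact (ENNReal.continuous_pow 2).continuousAt.tendsto.comp
          ((ENNReal.continuous_ofReal.tendsto _).comp h1)
      · right; exact ENNReal.coe_ne_top
    · right
      exact hT.measure_lt_top.ne
    · have h1 : Tendsto (fun N => C2 m n * d N) atTop (𝓝 0) := by
        simpa using hd.const_mul (C2 m n)
      exact (tendsto_measure_cthickening_of_isCompact hT).comp h1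
    · right
      exact ENNReal.mul_ne_top (ENNReal.pow_ne_top ENNReal.ofReal_ne_top) ENNReal.coe_ne_top
  have hval : (ENNReal.ofReal (a + b) ^ 2 * NNReal.pi) *
      volume (ap T '' poly (fun _ => (2 : ℝ))) =
      ENNReal.ofReal ((‖(A.submatrix id (Fin.cons i0 js : Fin (m + 1) → Fin n)).det‖ +
        ‖(A.submatrix id (Fin.cons i1 js : Fin (m + 1) → Fin n)).det‖) ^ 2) *
        (NNReal.pi * (ENNReal.ofReal 2 ^ 2 * NNReal.pi) ^ m) := by
    have h1 := volume_image_linear T (poly (fun _ => (2 : ℝ)))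
    rw [volume_poly, Finset.prod_const, Finset.card_univ, Fintype.card_fin] at h1
    change volume (ap T '' poly (fun _ => (2 : ℝ))) = _ at h1
    have h2 : (‖(A.submatrix id (Fin.cons i0 js : Fin (m + 1) → Fin n)).det‖ +
        ‖(A.submatrix id (Fin.cons i1 js : Fin (m + 1) → Fin n)).det‖) ^ 2 =
        (a + b) ^ 2 * ‖T.det‖ ^ 2 := by
      rw [norm_det_eq hQ hQ0, norm_det_eq hQ hQ0, ← add_mul, mul_pow]
    rw [h1, h2, ENNReal.ofReal_mul (by positivity), ENNReal.ofReal_pow (by positivity : 0 ≤ a + b)]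
    ring
  rw [← hval]
  calc _ ≤ limsup g atTop := limsup_le_limsup (Eventually.of_forall hle)
    _ = _ := hlim.limsup_eq

end Pool.Agent.H61.UProj
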