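import Mathlib
import Pool.Agent.H61.UProj.Limit

set_option autoImplicit false

/-!
# Measurability and the link with the averaged projections
-/

open MeasureTheory TopologicalSpace Filter Topology
open scoped ENNReal Pointwise Matrix

noncomputable section

namespace Pool.Agent.H61.UProj

theorem continuous_ap_pair {X : Type} [TopologicalSpace X] {k n : ℕ}
    {f : X → Matrix (Fin k) (Fin n) ℂ} (hf : Continuous f) :
    Continuous (fun q : X × Cn n => ap (f q.1) q.2) := by
  have h1 : (fun q : X × Cn n => ap (f q.1) q.2) =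
      fun q : X × Cn n => WithLp.toLp 2 (fun j => ∑ l, f q.1 j l * q.2 l) := by
    funext q
    ext j
    rfl
  rw [h1]
  refine (PiLp.continuous_toLp 2 _).comp ?_
  refine continuous_pi fun j => ?_
  refine continuous_finsetSum _ fun l _ => ?_
  refine Continuous.mul ?_ ?_
  · exact (hf.matrix_elem j l).comp continuous_fst
  · exact (continuous_apply l).comp ((PiLp.continuous_ofLp 2 _).comp continuous_snd)

theorem upperSemicontinuous_volume {X : Type} [TopologicalSpace X] {k n : ℕ}
    {f : X → Matrix (Fin k) (Fin n) ℂ} (hf : Continuous f) {P : Set (Cn n)} (hP : IsCompact P) :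
    UpperSemicontinuous (fun x => volume (ap (f x) '' P)) := by
  intro x y hy
  have hT : IsCompact (ap (f x) '' P) := hP.image (continuous_ap (f x))
  have h1 := tendsto_measure_cthickening_of_isCompact (μ := volume) hT
  have h2 : ∀ᶠ r in 𝓝 (0 : ℝ), volume (Metric.cthickening r (ap (f x) '' P)) < y :=
    h1.eventually_lt_const hy
  obtain ⟨r, hr0, hr⟩ : ∃ r : ℝ, 0 < r ∧ volume (Metric.cthickening r (ap (f x) '' P)) < y := by
    obtain ⟨ε, hε, h3⟩ := Metric.eventually_nhds_iff.1 h2
    refine ⟨ε / 2, by positivity, h3 ?_⟩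
    rw [Real.dist_eq, sub_zero, abs_of_pos (by positivity)]
    linarith
  have h4 : ∀ᶠ x' in 𝓝 x, ∀ p ∈ P, dist (ap (f x') p) (ap (f x) p) < r := by
    apply hP.eventually_forall_of_forall_eventually
    intro p _
    have h5 : Continuous (fun q : X × Cn n => dist (ap (f q.1) q.2) (ap (f x) q.2)) :=
      (continuous_ap_pair hf).dist ((continuous_ap (f x)).comp continuous_snd)
    have h6 := h5.tendsto (x, p)
    simp only [dist_self] at h6
    exact h6.eventually_lt_const hr0
  filter_upwards [h4] with x' hx'
  refine (measure_mono ?_).trans_lt hr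
  rintro _ ⟨p, hp, rfl⟩
  exact Metric.mem_cthickening_of_dist_le _ (ap (f x) p) _ _ ⟨p, hp, rfl⟩ (hx' p hp).le

theorem measurable_volume {X : Type} [TopologicalSpace X] [MeasurableSpace X] [BorelSpace X]
    {k n : ℕ} {f : X → Matrix (Fin k) (Fin n) ℂ} (hf : Continuous f) {P : Set (Cn n)}
    (hP : IsCompact P) : Measurable (fun x => volume (ap (f x) '' P)) :=
  (upperSemicontinuous_volume hf hP).measurable

end Pool.Agent.H61.UProj
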