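import Mathlib
import Pool.Agent.H61.UProj.Meas

set_option autoImplicit false

/-!
# The link with the averaged projections
-/

open MeasureTheory TopologicalSpace Filter Topology
open scoped ENNReal Pointwise Matrix

noncomputable section

namespace Pool.Agent.H61.UProj

variable {k n : ℕ}

/-- The real isometry given by a matrix with orthonormal columns. -/
def isoOf (M : Matrix (Fin n) (Fin k) ℂ) (hM : Mᴴ * M = 1) : Cn k →ₗᵢ[ℝ] Cn n where
  toLinearMap := (Matrix.toEuclideanLin M).restrictScalars ℝ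
  norm_map' := by
    intro y
    change ‖Matrix.toEuclideanLin M y‖ = ‖y‖
    have h : inner ℂ (Matrix.toEuclideanLin M y) (Matrix.toEuclideanLin M y) = inner ℂ y y := by
      rw [← LinearMap.adjoint_inner_right, ← Matrix.toEuclideanLin_conjTranspose_eq_adjoint]
      have h2 : Matrix.toEuclideanLin Mᴴ (Matrix.toEuclideanLin M y) = y := by
        change ap Mᴴ (ap M y) = y
        rw [← ap_mul, hM]
        ext j
        rw [ap_apply]
        simp [Matrix.one_apply]
      rw [h2]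
    rw [inner_self_eq_norm_sq_to_K, inner_self_eq_norm_sq_to_K] at h
    have h3 : ‖Matrix.toEuclideanLin M y‖ ^ 2 = ‖y‖ ^ 2 := by exact_mod_cast h
    exact (pow_left_inj₀ (norm_nonneg _) (norm_nonneg _) two_ne_zero).1 h3

theorem re_inner (z w : Cn n) : inner ℝ z w = (inner ℂ z w).re := by
  rw [real_inner_eq, PiLp.inner_apply]
  congr 1
  refine Finset.sum_congr rfl fun j _ => ?_
  rw [RCLike.inner_apply, mul_comm]

theorem inner_isoOf (M : Matrix (Fin n) (Fin k) ℂ) (hM : Mᴴ * M = 1) (y : Cn k) (z : Cn n) :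
    inner ℝ (isoOf M hM y) z = inner ℝ y (ap Mᴴ z) := by
  rw [re_inner, re_inner]
  congr 1
  change inner ℂ (Matrix.toEuclideanLin M y) z = inner ℂ y (Matrix.toEuclideanLin Mᴴ z)
  rw [Matrix.toEuclideanLin_conjTranspose_eq_adjoint, LinearMap.adjoint_inner_right]

theorem norm_entry_le (M : Matrix (Fin n) (Fin k) ℂ) (hM : Mᴴ * M = 1) (j : Fin k) (l : Fin n) :
    ‖Mᴴ j l‖ ≤ 1 := by
  have h1 : ‖isoOf M hM (EuclideanSpace.single j 1)‖ = 1 := by
    rw [LinearIsometry.norm_map, PiLp.norm_single, norm_one]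
  have h2 : (isoOf M hM (EuclideanSpace.single j 1)) l = M l j := by
    change ap M (EuclideanSpace.single j 1) l = M l j
    rw [ap_apply, Finset.sum_eq_single j]
    · simp
    · intro b _ hb
      simp [hb]
    · simp
  rw [Matrix.conjTranspose_apply, norm_star, ← h2, ← h1]
  exact PiLp.norm_apply_le _ l

/-- The projected volume in matrix form. -/
theorem projVol_moved (U : Matrix (Fin n) (Fin k) ℂ) (hU : Uᴴ * U = 1) (E : Submodule ℂ (Cn n))
    (hE : E = LinearMap.range (Matrix.toEuclideanLin U)) (φ : Un n) (K : Set (Cn n)) :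
    projVol (moved φ (E.restrictScalars ℝ)) K =
      volume (ap ((φ : Matrix (Fin n) (Fin n) ℂ) * U)ᴴ '' K) := by
  have hφ : ((φ : Matrix (Fin n) (Fin n) ℂ))ᴴ * (φ : Matrix (Fin n) (Fin n) ℂ) = 1 :=
    Matrix.mem_unitaryGroup_iff'.1 φ.2
  have hM : (((φ : Matrix (Fin n) (Fin n) ℂ) * U)ᴴ) * ((φ : Matrix (Fin n) (Fin n) ℂ) * U) = 1 := by
    rw [Matrix.conjTranspose_mul, Matrix.mul_assoc, ← Matrix.mul_assoc _ _ U, hφ, Matrix.one_mul, hU]
  refine projVol_eq (isoOf _ hM) _ (inner_isoOf _ hM) _ ?_ K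
  subst hE
  ext z
  constructor
  · rintro ⟨x, ⟨y, rfl⟩, rfl⟩
    refine ⟨y, ?_⟩
    change ap ((φ : Matrix (Fin n) (Fin n) ℂ) * U) y = ap (φ : Matrix (Fin n) (Fin n) ℂ) (ap U y)
    rw [ap_mul]
  · rintro ⟨y, rfl⟩
    refine ⟨ap U y, ⟨y, rfl⟩, ?_⟩
    change ap (φ : Matrix (Fin n) (Fin n) ℂ) (ap U y) = ap ((φ : Matrix (Fin n) (Fin n) ℂ) * U) y
    rw [ap_mul]

theorem exists_matrix (E : Submodule ℂ (Cn n)) (hE : Module.finrank ℂ E = k) :
    ∃ U : Matrix (Fin n) (Fin k) ℂ, Uᴴ * U = 1 ∧ E = LinearMap.range (Matrix.toEuclideanLin U) := by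
  subst hE
  let b := stdOrthonormalBasis ℂ E
  refine ⟨fun l j => (b j : Cn n) l, ?_, ?_⟩
  · ext i j
    rw [Matrix.mul_apply, Matrix.one_apply]
    have h1 : inner ℂ (b i) (b j) = if i = j then (1 : ℂ) else 0 :=
      orthonormal_iff_ite.1 b.orthonormal i j
    rw [← h1, Submodule.coe_inner, PiLp.inner_apply]
    refine Finset.sum_congr rfl fun l _ => ?_
    rw [RCLike.inner_apply, Matrix.conjTranspose_apply, mul_comm]
    rfl
  · have h2 : ∀ y, Matrix.toEuclideanLin (fun l j => (b j : Cn n) l) y = ∑ j, y j • (b j : Cn n) := by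
      intro y
      ext l
      change ap (fun l j => (b j : Cn n) l) y l = _
      rw [ap_apply, WithLp.ofLp_sum, Finset.sum_apply]
      refine Finset.sum_congr rfl fun j _ => ?_
      rw [PiLp.smul_apply, smul_eq_mul, mul_comm]
    ext z
    constructor
    · intro hz
      refine ⟨b.repr ⟨z, hz⟩, ?_⟩
      rw [h2]
      have h3 := b.sum_repr ⟨z, hz⟩
      have h4 := congrArg (E.subtype) h3
      rw [map_sum] at h4
      exact h4
    · rintro ⟨y, rfl⟩
      rw [h2]
      exact Submodule.sum_mem _ fun j _ => Submodule.smul_mem _ _ (b j).2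

end Pool.Agent.H61.UProj
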