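import Mathlib
import Pool.Agent.H61.UProj.Link

set_option autoImplicit false

/-!
# The strict inequality between the averages
-/

open MeasureTheory TopologicalSpace Filter Topology
open scoped ENNReal Pointwise Matrix

noncomputable section

namespace Pool.Agent.H61.UProj

variable {k n m : ℕ}

/-- The adjoint of `φ U`. -/
def Amat (U : Matrix (Fin n) (Fin k) ℂ) (φ : Un n) : Matrix (Fin k) (Fin n) ℂ :=
  ((φ : Matrix (Fin n) (Fin n) ℂ) * U)ᴴ

theorem continuous_Amat (U : Matrix (Fin n) (Fin k) ℂ) : Continuous (Amat U) := by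
  unfold Amat
  exact (continuous_subtype_val.matrix_mul continuous_const).matrix_conjTranspose

theorem Amat_entry_le {U : Matrix (Fin n) (Fin k) ℂ} (hU : Uᴴ * U = 1) (φ : Un n) (j : Fin k)
    (l : Fin n) : ‖Amat U φ j l‖ ≤ 1 := by
  have hφ : ((φ : Matrix (Fin n) (Fin n) ℂ))ᴴ * (φ : Matrix (Fin n) (Fin n) ℂ) = 1 :=
    Matrix.mem_unitaryGroup_iff'.1 φ.2
  have hM : (((φ : Matrix (Fin n) (Fin n) ℂ) * U)ᴴ) * ((φ : Matrix (Fin n) (Fin n) ℂ) * U) = 1 := by
    rw [Matrix.conjTranspose_mul, Matrix.mul_assoc, ← Matrix.mul_assoc _ _ U, hφ, Matrix.one_mul, hU]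
  exact norm_entry_le _ hM j l

/-- The absolute value of the minor. -/
def Dl (U : Matrix (Fin n) (Fin (m + 1)) ℂ) (js : Fin m → Fin n) (i : Fin n) (φ : Un n) : ℝ :=
  ‖((Amat U φ).submatrix id (Fin.cons i js : Fin (m + 1) → Fin n)).det‖

theorem Dl_nonneg (U : Matrix (Fin n) (Fin (m + 1)) ℂ) (js : Fin m → Fin n) (i : Fin n)
    (φ : Un n) : 0 ≤ Dl U js i φ := norm_nonneg _

theorem continuous_Dl (U : Matrix (Fin n) (Fin (m + 1)) ℂ) (js : Fin m → Fin n) (i : Fin n) :
    Continuous (Dl U js i) := by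
  unfold Dl
  exact ((continuous_Amat U).matrix_submatrix _ _).matrix_det.norm

/-- The unitary matrix of a transposition. -/
def swapU (i0 i1 : Fin n) : Un n :=
  ⟨(Equiv.swap i0 i1).permMatrix ℂ, by
    rw [Matrix.mem_unitaryGroup_iff, Matrix.star_eq_conjTranspose,
      Matrix.conjTranspose_permMatrix, Equiv.swap_inv, ← Matrix.permMatrix_mul, Equiv.swap_mul_self,
      Matrix.permMatrix_one]⟩

theorem Dl_swap (U : Matrix (Fin n) (Fin (m + 1)) ℂ) {js : Fin m → Fin n} {i0 i1 : Fin n}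
    (h0 : ∀ j, js j ≠ i0) (h1 : ∀ j, js j ≠ i1) (φ : Un n) :
    Dl U js i1 (swapU i0 i1 * φ) = Dl U js i0 φ := by
  unfold Dl
  congr 2
  ext j l
  simp only [Matrix.submatrix_apply, Amat, Matrix.conjTranspose_apply, id]
  congr 1
  change ((((Equiv.swap i0 i1).permMatrix ℂ) * (φ : Matrix (Fin n) (Fin n) ℂ)) * U) _ _ = _
  rw [Matrix.mul_assoc]
  have h2 : ∀ (a : Fin n) (b : Fin (m + 1)), ((((Equiv.swap i0 i1).permMatrix ℂ) *
      ((φ : Matrix (Fin n) (Fin n) ℂ) * U)) a b) =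
      ((φ : Matrix (Fin n) (Fin n) ℂ) * U) (Equiv.swap i0 i1 a) b := by
    intro a b
    rw [Equiv.Perm.permMatrix, PEquiv.toMatrix_toPEquiv_mul]
    rfl
  rw [h2]
  refine Fin.cases ?_ (fun l => ?_) l
  · simp
  · simp only [Fin.cons_succ]
    rw [Equiv.swap_apply_of_ne_of_ne (h0 l) (h1 l)]

theorem exists_sep {U : Matrix (Fin n) (Fin (m + 1)) ℂ} (hU : Uᴴ * U = 1) {js : Fin m → Fin n}
    {i0 i1 : Fin n} (hι : Function.Injective (Fin.cons i0 js : Fin (m + 1) → Fin n))
    (h01 : i0 ≠ i1) (h1 : ∀ j, js j ≠ i1) :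
    ∃ φ : Un n, Dl U js i0 φ = 1 ∧ Dl U js i1 φ = 0 := by
  classical
  set ι : Fin (m + 1) → Fin n := Fin.cons i0 js with hιdef
  let u : Fin (m + 1) → Cn n := fun j => WithLp.toLp 2 (fun l => U l j)
  have hu : Orthonormal ℂ u := by
    rw [orthonormal_iff_ite]
    intro i j
    have h2 : (Uᴴ * U) i j = (1 : Matrix (Fin (m + 1)) (Fin (m + 1)) ℂ) i j := by rw [hU]
    rw [Matrix.mul_apply, Matrix.one_apply] at h2
    rw [← h2, PiLp.inner_apply]
    refine Finset.sum_congr rfl fun l _ => ?_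
    rw [RCLike.inner_apply, Matrix.conjTranspose_apply, mul_comm]
    rfl
  let v : Fin n → Cn n := fun l => if h : ∃ j, ι j = l then u h.choose else 0
  have hv : ∀ j, v (ι j) = u j := by
    intro j
    have h : ∃ j', ι j' = ι j := ⟨j, rfl⟩
    simp only [v, dif_pos h]
    rw [hι h.choose_spec]
  have hres : Orthonormal ℂ ((Set.range ι).domRestrict v) := by
    have h2 : (Set.range ι).domRestrict v = u ∘ (Equiv.ofInjective ι hι).symm := by
      funext l
      obtain ⟨l, j, rfl⟩ := l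
      refine (hv j).trans ?_
      rw [Function.comp_apply]
      congr 1
      rw [Equiv.eq_symm_apply]
      rfl
    rw [h2]
    exact hu.comp _ (Equiv.injective _)
  obtain ⟨b, hb⟩ := hres.exists_orthonormalBasis_extension_of_card_eq (by simp)
  have hb' : ∀ j, b (ι j) = u j := fun j => by rw [hb _ ⟨j, rfl⟩, hv]
  let M : Matrix (Fin n) (Fin n) ℂ := fun l j => b j l
  have hMM : Mᴴ * M = 1 := by
    ext i j
    rw [Matrix.mul_apply, Matrix.one_apply]
    have h2 : inner ℂ (b i) (b j) = if i = j then (1 : ℂ) else 0 :=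
      orthonormal_iff_ite.1 b.orthonormal i j
    rw [← h2, PiLp.inner_apply]
    refine Finset.sum_congr rfl fun l _ => ?_
    rw [RCLike.inner_apply, Matrix.conjTranspose_apply, mul_comm]
    rfl
  have hMM' : M * Mᴴ = 1 := by
    exact mul_eq_one_comm.1 hMM
  let φ : Un n := ⟨Mᴴ, by
    rw [Matrix.mem_unitaryGroup_iff, Matrix.star_eq_conjTranspose, Matrix.conjTranspose_conjTranspose]
    exact hMM⟩
  have hA : ∀ j l, Amat U φ j l = if l = ι j then 1 else 0 := by
    intro j l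
    have h2 : (Mᴴ * U) l j = inner ℂ (b l) (b (ι j)) := by
      rw [Matrix.mul_apply, hb', PiLp.inner_apply]
      refine Finset.sum_congr rfl fun a _ => ?_
      rw [RCLike.inner_apply, Matrix.conjTranspose_apply, mul_comm]
      rfl
    have h3 : inner ℂ (b l) (b (ι j)) = if l = ι j then (1 : ℂ) else 0 :=
      orthonormal_iff_ite.1 b.orthonormal l (ι j)
    unfold Amat
    rw [Matrix.conjTranspose_apply]
    change star ((Mᴴ * U) l j) = _
    rw [h2, h3]
    split_ifs <;> simp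
  refine ⟨φ, ?_, ?_⟩
  · unfold Dl
    have h2 : (Amat U φ).submatrix id (Fin.cons i0 js : Fin (m + 1) → Fin n) = 1 := by
      ext j l
      rw [Matrix.submatrix_apply, hA, Matrix.one_apply]
      change (if ι l = ι j then (1 : ℂ) else 0) = _
      by_cases h : j = l
      · subst h
        simp
      · rw [if_neg (fun h' => h (hι h').symm), if_neg h]
    rw [h2, Matrix.det_one, norm_one]
  · unfold Dl
    rw [Matrix.det_eq_zero_of_column_eq_zero 0, norm_zero]
    intro j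
    rw [Matrix.submatrix_apply, hA, if_neg]
    simp only [Fin.cons_zero, id]
    refine Fin.cases ?_ (fun j => ?_) j
    · exact fun h => h01 h.symm
    · exact fun h => h1 j h.symm

/-- The average of the squared minor. -/
def cc (U : Matrix (Fin n) (Fin (m + 1)) ℂ) (js : Fin m → Fin n) (i : Fin n) : ℝ≥0∞ :=
  ∫⁻ φ, ENNReal.ofReal (Dl U js i φ ^ 2) ∂(haarU n)

theorem lintegral_lt_top {f : Un n → ℝ} (hf : Continuous f) :
    ∫⁻ φ, ENNReal.ofReal (f φ) ∂(haarU n) < ∞ := by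
  obtain ⟨C, hC⟩ := isCompact_univ.exists_bound_of_continuousOn hf.continuousOn
  calc ∫⁻ φ, ENNReal.ofReal (f φ) ∂(haarU n) ≤ ∫⁻ _, ENNReal.ofReal C ∂(haarU n) := by
        apply lintegral_mono
        intro φ
        exact ENNReal.ofReal_le_ofReal ((le_abs_self _).trans (hC φ (Set.mem_univ _)))
    _ = ENNReal.ofReal C := by simp
    _ < ∞ := ENNReal.ofReal_lt_top

theorem cc_lt_top (U : Matrix (Fin n) (Fin (m + 1)) ℂ) (js : Fin m → Fin n) (i : Fin n) :
    cc U js i < ∞ := lintegral_lt_top ((continuous_Dl U js i).pow 2)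

theorem cc_eq (U : Matrix (Fin n) (Fin (m + 1)) ℂ) {js : Fin m → Fin n} {i0 i1 : Fin n}
    (h0 : ∀ j, js j ≠ i0) (h1 : ∀ j, js j ≠ i1) : cc U js i1 = cc U js i0 := by
  unfold cc
  rw [← lintegral_mul_left_eq_self (μ := haarU n)
    (fun φ => ENNReal.ofReal (Dl U js i1 φ ^ 2)) (swapU i0 i1)]
  simp only [Dl_swap U h0 h1]

theorem strict {U : Matrix (Fin n) (Fin (m + 1)) ℂ} (hU : Uᴴ * U = 1) {js : Fin m → Fin n}
    {i0 i1 : Fin n} (hι : Function.Injective (Fin.cons i0 js : Fin (m + 1) → Fin n))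
    (h01 : i0 ≠ i1) (h1 : ∀ j, js j ≠ i1) :
    ∫⁻ φ, ENNReal.ofReal ((Dl U js i0 φ + Dl U js i1 φ) ^ 2) ∂(haarU n) < 4 * cc U js i0 := by
  have h0 : ∀ j, js j ≠ i0 := by
    intro j hj
    have h2 : (Fin.cons i0 js : Fin (m + 1) → Fin n) j.succ =
        (Fin.cons i0 js : Fin (m + 1) → Fin n) 0 := by simp [hj]
    exact Fin.succ_ne_zero j (hι h2)
  have hc0 := continuous_Dl U js i0
  have hc1 := continuous_Dl U js i1
  have hG : Continuous (fun φ => (Dl U js i0 φ - Dl U js i1 φ) ^ 2) := (hc0.sub hc1).pow 2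
  have hF : Continuous (fun φ => (Dl U js i0 φ + Dl U js i1 φ) ^ 2) := (hc0.add hc1).pow 2
  have hsum : ∫⁻ φ, ENNReal.ofReal ((Dl U js i0 φ + Dl U js i1 φ) ^ 2) ∂(haarU n) +
      ∫⁻ φ, ENNReal.ofReal ((Dl U js i0 φ - Dl U js i1 φ) ^ 2) ∂(haarU n) = 4 * cc U js i0 := by
    rw [← lintegral_add_left hF.measurable.ennreal_ofReal]
    have h2 : ∀ φ, ENNReal.ofReal ((Dl U js i0 φ + Dl U js i1 φ) ^ 2) +
        ENNReal.ofReal ((Dl U js i0 φ - Dl U js i1 φ) ^ 2) =
        2 * ENNReal.ofReal (Dl U js i0 φ ^ 2) + 2 * ENNReal.ofReal (Dl U js i1 φ ^ 2) := by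
      intro φ
      rw [← ENNReal.ofReal_add (by positivity) (by positivity)]
      have h3 : (2 : ℝ≥0∞) = ENNReal.ofReal 2 := by simp
      rw [h3, ← ENNReal.ofReal_mul (by norm_num), ← ENNReal.ofReal_mul (by norm_num),
        ← ENNReal.ofReal_add (by positivity) (by positivity)]
      congr 1
      ring
    simp only [h2]
    have hm0 : Measurable (fun φ => ENNReal.ofReal (Dl U js i0 φ ^ 2)) :=
      (hc0.pow 2).measurable.ennreal_ofReal
    have hm1 : Measurable (fun φ => ENNReal.ofReal (Dl U js i1 φ ^ 2)) :=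
      (hc1.pow 2).measurable.ennreal_ofReal
    rw [lintegral_add_left (hm0.const_mul 2), lintegral_const_mul _ hm0, lintegral_const_mul _ hm1]
    change 2 * cc U js i0 + 2 * cc U js i1 = _
    rw [cc_eq U h0 h1, ← add_mul]
    norm_num
  have hpos : 0 < ∫⁻ φ, ENNReal.ofReal ((Dl U js i0 φ - Dl U js i1 φ) ^ 2) ∂(haarU n) := by
    rw [lintegral_pos_iff_support hG.measurable.ennreal_ofReal]
    have h2 : Function.support (fun φ => ENNReal.ofReal ((Dl U js i0 φ - Dl U js i1 φ) ^ 2)) =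
        {φ | 0 < (Dl U js i0 φ - Dl U js i1 φ) ^ 2} := by
      ext φ
      simp only [Function.mem_support, Set.mem_ofPred_eq, ne_eq, ENNReal.ofReal_eq_zero, not_le]
    rw [h2]
    obtain ⟨φ, h3, h4⟩ := exists_sep hU hι h01 h1
    exact (isOpen_lt continuous_const hG).measure_pos (haarU n) ⟨φ, by simp [h3, h4]⟩
  rw [← hsum]
  exact ENNReal.lt_add_right (lintegral_lt_top hF).ne hpos.ne'

end Pool.Agent.H61.UProj
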