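import Mathlib
import Pool.Agent.H61.UProj.Avg

set_option autoImplicit false

/-!
# Proper complex subspaces do not have the Brunn-Minkowski property
-/

open MeasureTheory TopologicalSpace Filter Topology
open scoped ENNReal Pointwise Matrix

noncomputable section

namespace Pool.Agent.H61.UProj

variable {n m : ℕ}

theorem zero_mem_interior_poly {r : Fin n → ℝ} (hr : ∀ l, 0 < r l) : 0 ∈ interior (poly r) := by
  have h1 : IsOpen {z : Cn n | ∀ j, ‖z j‖ < r j} := by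
    rw [Set.ofPred_forall]
    refine isOpen_iInter_of_finite fun j => ?_
    exact isOpen_lt ((continuous_apply j).comp (PiLp.continuous_ofLp 2 _)).norm continuous_const
  have h2 : {z : Cn n | ∀ j, ‖z j‖ < r j} ⊆ poly r := fun z hz j => (hz j).le
  exact interior_maximal h2 h1 (fun j => by simpa using hr j)

theorem isConvexBody_poly {r : Fin n → ℝ} (hr : ∀ l, 0 < r l) : IsConvexBody (poly r) := by
  refine ⟨?_, isCompact_poly r, ?_⟩
  · have h1 : poly r = ⋂ j, {z : Cn n | ‖z j‖ ≤ r j} := by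
      ext z
      simp [poly]
    rw [h1]
    refine convex_iInter fun j => ?_
    have h2 : {z : Cn n | ‖z j‖ ≤ r j} =
        (PiLp.projₗ 2 (fun _ : Fin n => ℂ) j : Cn n →ₗ[ℝ] ℂ) ⁻¹' Metric.closedBall (0 : ℂ) (r j) := by
      ext z
      simp
    rw [h2]
    exact (convex_closedBall _ _).linear_preimage _
  · exact ⟨0, zero_mem_interior_poly hr⟩

open Classical in
/-- The radii of the test polydiscs. -/
def radK (i : Fin n) (js : Fin m → Fin n) (δ : ℝ) (l : Fin n) : ℝ :=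
  if l = i then δ else if l ∈ Set.range js then 1 else δ ^ 2

theorem radK_pos (i : Fin n) (js : Fin m → Fin n) {δ : ℝ} (hδ : 0 < δ) (l : Fin n) :
    0 < radK i js δ l := by
  unfold radK
  split_ifs <;> positivity

theorem add_subset (i0 i1 : Fin n) (js : Fin m → Fin n) {δ : ℝ} (h01 : i0 ≠ i1)
    (h0 : ∀ j, js j ≠ i0) (h1 : ∀ j, js j ≠ i1) :
    poly (radK i0 js δ) + poly (radK i1 js δ) ⊆ poly (radS i0 i1 js δ) := by
  rintro _ ⟨x, hx, y, hy, rfl⟩ l
  refine (norm_add_le (x l) (y l)).trans ((add_le_add (hx l) (hy l)).trans ?_)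
  have hr0 : i0 ∉ Set.range js := fun ⟨j, hj⟩ => h0 j hj
  have hr1 : i1 ∉ Set.range js := fun ⟨j, hj⟩ => h1 j hj
  unfold radK radS
  by_cases hl0 : l = i0
  · subst hl0
    simp only [if_true, true_or, if_neg h01, if_neg hr0]
    exact le_rfl
  · by_cases hl1 : l = i1
    · subst hl1
      simp only [if_true, or_true, if_neg h01.symm, if_neg hr1]
      linarith
    · simp only [if_neg hl0, if_neg hl1, if_neg (not_or.2 ⟨hl0, hl1⟩)]
      split_ifs <;> linarith

theorem VE_eq {E : Submodule ℂ (Cn n)} {U : Matrix (Fin n) (Fin (m + 1)) ℂ} (hU : Uᴴ * U = 1)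
    (hE : E = LinearMap.range (Matrix.toEuclideanLin U)) (K : Set (Cn n)) :
    VE (E.restrictScalars ℝ) K = ∫⁻ φ, volume (ap (Amat U φ) '' K) ∂(haarU n) := by
  unfold VE
  refine lintegral_congr fun φ => ?_
  exact projVol_moved U hU E hE φ K

theorem VE_lower {E : Submodule ℂ (Cn n)} {U : Matrix (Fin n) (Fin (m + 1)) ℂ} (hU : Uᴴ * U = 1)
    (hE : E = LinearMap.range (Matrix.toEuclideanLin U)) (i : Fin n) {js : Fin m → Fin n}
    (hι : Function.Injective (Fin.cons i js : Fin (m + 1) → Fin n)) {δ : ℝ} (hδ : 0 < δ) :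
    cc U js i * (ENNReal.ofReal δ ^ 2 * NNReal.pi ^ (m + 1)) ≤
      VE (E.restrictScalars ℝ) (poly (radK i js δ)) := by
  have hi : ∀ j, js j ≠ i := by
    intro j hj
    have h2 : (Fin.cons i js : Fin (m + 1) → Fin n) j.succ =
        (Fin.cons i js : Fin (m + 1) → Fin n) 0 := by simp [hj]
    exact Fin.succ_ne_zero j (hι h2)
  rw [VE_eq hU hE]
  unfold cc
  rw [← lintegral_mul_const' _ _ (ENNReal.mul_ne_top (ENNReal.pow_ne_top ENNReal.ofReal_ne_top)
    (ENNReal.pow_ne_top ENNReal.coe_ne_top))]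
  apply lintegral_mono
  intro φ
  have h := lower (Amat U φ) (Fin.cons i js : Fin (m + 1) → Fin n) hι (radK i js δ)
    (fun l => (radK_pos i js hδ l).le)
  refine le_trans (le_of_eq ?_) h
  change ENNReal.ofReal (Dl U js i φ ^ 2) * _ = ENNReal.ofReal (Dl U js i φ ^ 2) * _
  congr 1
  rw [Fin.prod_univ_succ]
  simp only [Fin.cons_zero, Fin.cons_succ]
  have h3 : radK i js δ i = δ := by
    unfold radK
    rw [if_pos rfl]
  have h4 : ∀ j, radK i js δ (js j) = 1 := by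
    intro j
    unfold radK
    rw [if_neg (hi j), if_pos ⟨j, rfl⟩]
  simp only [h3, h4, ENNReal.ofReal_one, one_pow, one_mul, Finset.prod_const, Finset.card_univ,
    Fintype.card_fin]
  ring

/-- The Brunn-Minkowski property for convex bodies with `0` in the interior. -/
def HasBM0 {n : ℕ} (E : Submodule ℝ (Cn n)) : Prop :=
  ∀ K L : Set (Cn n), IsConvexBody K → IsConvexBody L → 0 ∈ interior K → 0 ∈ interior L →
    (VE E K) ^ (1 / (Module.finrank ℝ E : ℝ)) + (VE E L) ^ (1 / (Module.finrank ℝ E : ℝ)) ≤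
      (VE E (K + L)) ^ (1 / (Module.finrank ℝ E : ℝ))

/-- The average volume of the projections of the sum, normalised. -/
def fN (U : Matrix (Fin n) (Fin (m + 1)) ℂ) (i0 i1 : Fin n) (js : Fin m → Fin n) (δ : ℝ)
    (φ : Un n) : ℝ≥0∞ :=
  volume (ap (Amat U φ) '' poly (radS i0 i1 js δ)) / ENNReal.ofReal δ ^ 2

theorem measurable_fN (U : Matrix (Fin n) (Fin (m + 1)) ℂ) (i0 i1 : Fin n) (js : Fin m → Fin n)
    (δ : ℝ) : Measurable (fN U i0 i1 js δ) := by
  unfold fN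
  exact (measurable_volume (continuous_Amat U) (isCompact_poly _)).div_const _

theorem bm_lower {E : Submodule ℂ (Cn n)} {U : Matrix (Fin n) (Fin (m + 1)) ℂ} (hU : Uᴴ * U = 1)
    (hE : E = LinearMap.range (Matrix.toEuclideanLin U)) (hr : Module.finrank ℂ E = m + 1)
    (hBM : HasBM0 (E.restrictScalars ℝ)) {i0 i1 : Fin n} {js : Fin m → Fin n}
    (hι0 : Function.Injective (Fin.cons i0 js : Fin (m + 1) → Fin n))
    (hι1 : Function.Injective (Fin.cons i1 js : Fin (m + 1) → Fin n))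
    (h01 : i0 ≠ i1) (h0 : ∀ j, js j ≠ i0) (h1 : ∀ j, js j ≠ i1) {δ : ℝ} (hδ : 0 < δ) :
    4 ^ (m + 1) * (cc U js i0 * NNReal.pi ^ (m + 1)) ≤ ∫⁻ φ, fN U i0 i1 js δ φ ∂(haarU n) := by
  have hfin : Module.finrank ℝ (E.restrictScalars ℝ) = 2 * (m + 1) := by
    have h2 : Module.finrank ℝ (E.restrictScalars ℝ) = Module.finrank ℝ E := rfl
    rw [h2, finrank_real_of_complex, hr]
  have hpos : ENNReal.ofReal δ ^ 2 ≠ 0 := by
    apply pow_ne_zero
    rw [Ne, ENNReal.ofReal_eq_zero, not_le]; exact hδ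
  have hne : ENNReal.ofReal δ ^ 2 ≠ ∞ := ENNReal.pow_ne_top ENNReal.ofReal_ne_top
  have hB := hBM _ _ (isConvexBody_poly (radK_pos i0 js hδ)) (isConvexBody_poly (radK_pos i1 js hδ))
    (zero_mem_interior_poly (radK_pos i0 js hδ)) (zero_mem_interior_poly (radK_pos i1 js hδ))
  rw [hfin] at hB
  set a : ℝ≥0∞ := cc U js i0 * (ENNReal.ofReal δ ^ 2 * NNReal.pi ^ (m + 1)) with ha
  set p : ℝ := 1 / ((2 * (m + 1) : ℕ) : ℝ) with hp
  have hp0 : 0 ≤ p := by positivity
  have h2 : a ^ p ≤ (VE (E.restrictScalars ℝ) (poly (radK i0 js δ))) ^ p :=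
    ENNReal.rpow_le_rpow (VE_lower hU hE i0 hι0 hδ) hp0
  have h3 : a ^ p ≤ (VE (E.restrictScalars ℝ) (poly (radK i1 js δ))) ^ p := by
    apply ENNReal.rpow_le_rpow _ hp0
    rw [ha, ← cc_eq U h0 h1]
    exact VE_lower hU hE i1 hι1 hδ
  set S : ℝ≥0∞ := ∫⁻ φ, volume (ap (Amat U φ) '' poly (radS i0 i1 js δ)) ∂(haarU n) with hS
  have h4 : VE (E.restrictScalars ℝ) (poly (radK i0 js δ) + poly (radK i1 js δ)) ≤ S := by
    rw [VE_eq hU hE]
    exact lintegral_mono fun φ => measure_mono (Set.image_mono (add_subset i0 i1 js h01 h0 h1))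
  have h5 : 2 * a ^ p ≤ S ^ p := by
    rw [two_mul]
    exact (add_le_add h2 h3).trans (hB.trans (ENNReal.rpow_le_rpow h4 hp0))
  have h6 : (2 * a ^ p) ^ (2 * (m + 1)) ≤ (S ^ p) ^ (2 * (m + 1)) := by gcongr
  have hroot : ∀ x : ℝ≥0∞, (x ^ p) ^ (2 * (m + 1)) = x := by
    intro x
    rw [← ENNReal.rpow_natCast, ← ENNReal.rpow_mul, hp, one_div, inv_mul_cancel₀ (by positivity),
      ENNReal.rpow_one]
  rw [mul_pow, hroot, hroot, pow_mul] at h6
  have h7 : ∫⁻ φ, fN U i0 i1 js δ φ ∂(haarU n) = S / ENNReal.ofReal δ ^ 2 := by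
    unfold fN
    simp only [div_eq_mul_inv]
    rw [lintegral_mul_const' _ _ (ENNReal.inv_ne_top.2 hpos)]
  rw [h7, ENNReal.le_div_iff_mul_le (Or.inl hpos) (Or.inl hne)]
  refine le_trans (le_of_eq ?_) h6
  rw [ha]
  norm_num
  ring

theorem not_hasBM_aux {E : Submodule ℂ (Cn n)} (hr : Module.finrank ℂ E = m + 1)
    {i0 i1 : Fin n} {js : Fin m → Fin n} (hjs : Function.Injective js)
    (hι0 : Function.Injective (Fin.cons i0 js : Fin (m + 1) → Fin n))
    (hι1 : Function.Injective (Fin.cons i1 js : Fin (m + 1) → Fin n))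
    (h01 : i0 ≠ i1) (h0 : ∀ j, js j ≠ i0) (h1 : ∀ j, js j ≠ i1) :
    ¬ HasBM0 (E.restrictScalars ℝ) := by
  intro hBM
  obtain ⟨U, hU, hE⟩ := exists_matrix E hr
  let d : ℕ → ℝ := fun N => 1 / ((N : ℝ) + 1)
  have hd0 : ∀ N, 0 < d N := fun N => Nat.one_div_pos_of_nat
  have hd1 : ∀ N, d N ≤ 1 := by
    intro N
    simp only [d]
    rw [div_le_one (by positivity)]
    have : (0 : ℝ) ≤ N := Nat.cast_nonneg N
    linarith
  have hd : Tendsto d atTop (𝓝 0) := tendsto_one_div_add_atTop_nhds_zero_nat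
  have hlow : ∀ N, 4 ^ (m + 1) * (cc U js i0 * NNReal.pi ^ (m + 1)) ≤
      ∫⁻ φ, fN U i0 i1 js (d N) φ ∂(haarU n) :=
    fun N => bm_lower hU hE hr hBM hι0 hι1 h01 h0 h1 (hd0 N)
  have hFatou : limsup (fun N => ∫⁻ φ, fN U i0 i1 js (d N) φ ∂(haarU n)) atTop ≤
      ∫⁻ φ, limsup (fun N => fN U i0 i1 js (d N) φ) atTop ∂(haarU n) := by
    apply limsup_lintegral_le (fun _ => Cst m n) (fun N => measurable_fN U i0 i1 js (d N))
    · intro N
      refine Eventually.of_forall fun φ => ?_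
      have hpos : ENNReal.ofReal (d N) ≠ 0 := by
        rw [Ne, ENNReal.ofReal_eq_zero, not_le]; exact hd0 N
      apply ENNReal.div_le_of_le_mul
      rw [mul_comm]
      exact volume_le_uniform (Amat_entry_le hU φ) hjs (hd0 N).le (hd1 N)
    · simp only [lintegral_const, measure_univ, mul_one]
      exact (Cst_lt_top m n).ne
  have h2 : 4 ^ (m + 1) * (cc U js i0 * NNReal.pi ^ (m + 1)) ≤
      limsup (fun N => ∫⁻ φ, fN U i0 i1 js (d N) φ ∂(haarU n)) atTop := by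
    calc 4 ^ (m + 1) * (cc U js i0 * NNReal.pi ^ (m + 1)) =
        limsup (fun _ : ℕ => 4 ^ (m + 1) * (cc U js i0 * (NNReal.pi : ℝ≥0∞) ^ (m + 1))) atTop := by
          rw [limsup_const]
      _ ≤ _ := limsup_le_limsup (Eventually.of_forall hlow)
  have h3 : ∫⁻ φ, limsup (fun N => fN U i0 i1 js (d N) φ) atTop ∂(haarU n) ≤
      (∫⁻ φ, ENNReal.ofReal ((Dl U js i0 φ + Dl U js i1 φ) ^ 2) ∂(haarU n)) *
        (NNReal.pi * (ENNReal.ofReal 2 ^ 2 * NNReal.pi) ^ m) := by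
    rw [← lintegral_mul_const' _ _ (ENNReal.mul_ne_top ENNReal.coe_ne_top
      (ENNReal.pow_ne_top (ENNReal.mul_ne_top (ENNReal.pow_ne_top ENNReal.ofReal_ne_top)
        ENNReal.coe_ne_top)))]
    apply lintegral_mono
    intro φ
    exact limsup_volume_le (Amat_entry_le hU φ) hjs d hd0 hd1 hd
  have hpi : (NNReal.pi : ℝ≥0∞) ≠ 0 := by
    rw [Ne, ENNReal.coe_eq_zero]
    exact NNReal.pi_ne_zero
  have h4 : (∫⁻ φ, ENNReal.ofReal ((Dl U js i0 φ + Dl U js i1 φ) ^ 2) ∂(haarU n)) *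
        (NNReal.pi * (ENNReal.ofReal 2 ^ 2 * NNReal.pi) ^ m) <
      (4 * cc U js i0) * (NNReal.pi * (ENNReal.ofReal 2 ^ 2 * NNReal.pi) ^ m) := by
    apply ENNReal.mul_lt_mul_left
    · exact mul_ne_zero hpi (pow_ne_zero _ (mul_ne_zero (by simp) hpi))
    · exact (ENNReal.mul_ne_top ENNReal.coe_ne_top
        (ENNReal.pow_ne_top (ENNReal.mul_ne_top (ENNReal.pow_ne_top ENNReal.ofReal_ne_top)
        ENNReal.coe_ne_top)))
    · exact strict hU hι0 h01 h1
  have h5 : (4 * cc U js i0) * (NNReal.pi * (ENNReal.ofReal 2 ^ 2 * NNReal.pi) ^ m) =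
      4 ^ (m + 1) * (cc U js i0 * NNReal.pi ^ (m + 1)) := by
    have : ENNReal.ofReal 2 ^ 2 = 4 := by
      rw [ENNReal.ofReal_ofNat]; norm_num
    rw [this]
    ring
  rw [h5] at h4
  exact absurd ((h2.trans hFatou).trans h3) (not_le.2 h4)

theorem not_hasBM0 (E : Submodule ℂ (Cn n)) (hbot : E ≠ ⊥) (htop : E ≠ ⊤) :
    ¬ HasBM0 (E.restrictScalars ℝ) := by
  have h1 : 0 < Module.finrank ℂ E := by
    rw [Nat.pos_iff_ne_zero, Ne, Submodule.finrank_eq_zero]
    exact hbot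
  have h2 : Module.finrank ℂ E < n := by
    have := Submodule.finrank_lt htop
    rwa [finrank_euclideanSpace_fin] at this
  obtain ⟨m, hm⟩ : ∃ m, Module.finrank ℂ E = m + 1 := ⟨Module.finrank ℂ E - 1, by omega⟩
  have hn : m + 2 ≤ n := by omega
  have hinj : ∀ (a : Fin n), (∀ j : Fin m, (⟨j + 2, by omega⟩ : Fin n) ≠ a) →
      Function.Injective (Fin.cons a (fun j : Fin m => (⟨j + 2, by omega⟩ : Fin n)) :
        Fin (m + 1) → Fin n) := by
    intro a ha
    rw [Fin.cons_injective_iff]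
    refine ⟨?_, ?_⟩
    · rintro ⟨j, hj⟩
      exact ha j hj
    · intro j j' hj
      simp only [Fin.mk.injEq, Nat.add_right_cancel_iff] at hj
      exact Fin.ext hj
  have ha0 : ∀ j : Fin m, (⟨j + 2, by omega⟩ : Fin n) ≠ ⟨0, by omega⟩ := by
    intro j h
    simp only [Fin.mk.injEq] at h
    omega
  have ha1 : ∀ j : Fin m, (⟨j + 2, by omega⟩ : Fin n) ≠ ⟨1, by omega⟩ := by
    intro j h
    simp only [Fin.mk.injEq] at h
    omega
  refine not_hasBM_aux hm (i0 := ⟨0, by omega⟩) (i1 := ⟨1, by omega⟩)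
    (js := fun j => ⟨j + 2, by omega⟩) ?_ (hinj _ ha0) (hinj _ ha1) ?_ ha0 ha1
  · intro j j' hj
    simp only [Fin.mk.injEq, Nat.add_right_cancel_iff] at hj
    exact Fin.ext hj
  · intro h
    simp only [Fin.mk.injEq] at h
    omega

theorem HasBM.hasBM0 {E : Submodule ℝ (Cn n)} (h : HasBM E) : HasBM0 E :=
  fun K L hK hL _ _ => h K L hK hL

end Pool.Agent.H61.UProj
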