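import Mathlib
import Pool.Agent.H61.UProj.Main

set_option autoImplicit false

/-!
# Failure of the Brunn-Minkowski property is an open condition
-/

open MeasureTheory TopologicalSpace Filter Topology
open scoped ENNReal Pointwise Matrix

noncomputable section

namespace Pool.Agent.H61.UProj

variable {n i : ℕ}

/-- Real `i`-space. -/
abbrev Rn (i : ℕ) : Type := EuclideanSpace ℝ (Fin i)

/-- The adjoint of an isometry. -/
def adj (J : Rn i →ₗᵢ[ℝ] Cn n) : Cn n →L[ℝ] Rn i :=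
  ContinuousLinearMap.adjoint J.toContinuousLinearMap

theorem inner_adj (J : Rn i →ₗᵢ[ℝ] Cn n) (y : Rn i) (z : Cn n) :
    inner ℝ (J y) z = inner ℝ y (adj J z) := by
  unfold adj
  rw [ContinuousLinearMap.adjoint_inner_right]
  rfl

theorem adj_apply (J : Rn i →ₗᵢ[ℝ] Cn n) (y : Rn i) : adj J (J y) = y := by
  apply ext_inner_left ℝ
  intro x
  rw [← inner_adj, LinearIsometry.inner_map_map]

theorem norm_adj_sub_le {J J' : Rn i →ₗᵢ[ℝ] Cn n} {η : ℝ} (hη : 0 ≤ η)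
    (h : ∀ y, ‖J y - J' y‖ ≤ η * ‖y‖) (z : Cn n) : ‖adj J z - adj J' z‖ ≤ η * ‖z‖ := by
  have h1 : adj J z - adj J' z =
      ContinuousLinearMap.adjoint (J.toContinuousLinearMap - J'.toContinuousLinearMap) z := by
    rw [map_sub]
    rfl
  rw [h1]
  refine (ContinuousLinearMap.le_opNorm _ z).trans ?_
  rw [LinearIsometryEquiv.norm_map]
  refine mul_le_mul_of_nonneg_right ?_ (norm_nonneg _)
  exact ContinuousLinearMap.opNorm_le_bound _ hη h

theorem image_subset {J J' : Rn i →ₗᵢ[ℝ] Cn n} {η ρ R : ℝ} (hη : 0 ≤ η) (hρ : 0 < ρ)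
    (hR : 0 ≤ R) (h : ∀ y, ‖J y - J' y‖ ≤ η * ‖y‖) {K : Set (Cn n)} (hK : Convex ℝ K)
    (h1 : Metric.closedBall 0 ρ ⊆ K) (h2 : K ⊆ Metric.closedBall 0 R) :
    adj J '' K ⊆ (1 + η * R / ρ) • (adj J' '' K) := by
  rintro _ ⟨z, hz, rfl⟩
  set s := η * R / ρ with hs
  have hs0 : 0 ≤ s := by positivity
  have hz2 : ‖z‖ ≤ R := by simpa using h2 hz
  set v := adj J z - adj J' z with hv
  have hvn : ‖v‖ ≤ s * ρ := by
    rw [hs, div_mul_cancel₀ _ hρ.ne']
    exact (norm_adj_sub_le hη h z).trans (mul_le_mul_of_nonneg_left hz2 hη)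
  obtain ⟨u, hu, hus⟩ : ∃ u ∈ K, s • adj J' u = v := by
    rcases hs0.eq_or_lt with h0 | h0
    · refine ⟨z, hz, ?_⟩
      rw [← h0, zero_mul] at hvn
      have : v = 0 := norm_le_zero_iff.1 hvn
      rw [this, ← h0, zero_smul]
    · refine ⟨s⁻¹ • J' v, h1 ?_, ?_⟩
      · rw [mem_closedBall_zero_iff, norm_smul, LinearIsometry.norm_map, norm_inv,
          Real.norm_of_nonneg hs0, inv_mul_le_iff₀ h0]
        exact hvn
      · rw [map_smul, adj_apply, smul_smul, mul_inv_cancel₀ h0.ne', one_smul]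
  refine ⟨adj J' ((1 / (1 + s)) • z + (s / (1 + s)) • u), ⟨_, ?_, rfl⟩, ?_⟩
  · apply hK hz hu (by positivity) (by positivity)
    field_simp
  · simp only [map_add, map_smul, smul_add, smul_smul]
    rw [mul_one_div, mul_div_cancel₀ _ (by positivity : (1 + s) ≠ 0), div_self (by positivity),
      one_smul, hus, hv]
    abel

theorem volume_image_le {J J' : Rn i →ₗᵢ[ℝ] Cn n} {η ρ R : ℝ} (hη : 0 ≤ η) (hρ : 0 < ρ)
    (hR : 0 ≤ R) (h : ∀ y, ‖J y - J' y‖ ≤ η * ‖y‖) {K : Set (Cn n)} (hK : Convex ℝ K)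
    (h1 : Metric.closedBall 0 ρ ⊆ K) (h2 : K ⊆ Metric.closedBall 0 R) :
    volume (adj J '' K) ≤ ENNReal.ofReal ((1 + η * R / ρ) ^ i) * volume (adj J' '' K) := by
  refine (measure_mono (image_subset hη hρ hR h hK h1 h2)).trans ?_
  rw [Measure.addHaar_smul, finrank_euclideanSpace_fin, abs_of_nonneg (by positivity)]

/-- A unitary matrix as a real isometry. -/
def uni (φ : Un n) : Cn n →ₗᵢ[ℝ] Cn n :=
  isoOf (φ : Matrix (Fin n) (Fin n) ℂ) (Matrix.mem_unitaryGroup_iff'.1 φ.2)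

theorem moved_range (J : Rn i →ₗᵢ[ℝ] Cn n) (φ : Un n) :
    moved φ (LinearMap.range J.toLinearMap) =
      LinearMap.range ((uni φ).comp J).toLinearMap := by
  ext z
  constructor
  · rintro ⟨_, ⟨y, rfl⟩, rfl⟩
    exact ⟨y, rfl⟩
  · rintro ⟨y, rfl⟩
    exact ⟨J y, ⟨y, rfl⟩, rfl⟩

theorem VE_range (J : Rn i →ₗᵢ[ℝ] Cn n) (K : Set (Cn n)) :
    VE (LinearMap.range J.toLinearMap) K =
      ∫⁻ φ, volume (adj ((uni φ).comp J) '' K) ∂(haarU n) := by
  unfold VE
  refine lintegral_congr fun φ => ?_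
  exact projVol_eq ((uni φ).comp J) _ (inner_adj _) _ (moved_range J φ) K

theorem VE_le {J J' : Rn i →ₗᵢ[ℝ] Cn n} {η ρ R : ℝ} (hη : 0 ≤ η) (hρ : 0 < ρ)
    (hR : 0 ≤ R) (h : ∀ y, ‖J y - J' y‖ ≤ η * ‖y‖) {K : Set (Cn n)} (hK : Convex ℝ K)
    (h1 : Metric.closedBall 0 ρ ⊆ K) (h2 : K ⊆ Metric.closedBall 0 R) :
    VE (LinearMap.range J.toLinearMap) K ≤
      ENNReal.ofReal ((1 + η * R / ρ) ^ i) * VE (LinearMap.range J'.toLinearMap) K := by
  rw [VE_range, VE_range, ← lintegral_const_mul' _ _ ENNReal.ofReal_ne_top]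
  apply lintegral_mono
  intro φ
  refine volume_image_le hη hρ hR ?_ hK h1 h2
  intro y
  change ‖uni φ (J y) - uni φ (J' y)‖ ≤ _
  rw [← map_sub, LinearIsometry.norm_map]
  exact h y

theorem norm_adj_le (J : Rn i →ₗᵢ[ℝ] Cn n) (z : Cn n) : ‖adj J z‖ ≤ ‖z‖ := by
  have h1 : ‖adj J z‖ ^ 2 ≤ ‖adj J z‖ * ‖z‖ := by
    rw [← real_inner_self_eq_norm_sq, ← inner_adj]
    refine (real_inner_le_norm _ _).trans ?_
    rw [LinearIsometry.norm_map]
  rcases (norm_nonneg (adj J z)).eq_or_lt with h0 | h0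
  · rw [← h0]; exact norm_nonneg z
  · nlinarith

theorem VE_lt_top (J : Rn i →ₗᵢ[ℝ] Cn n) {R : ℝ} {K : Set (Cn n)}
    (h2 : K ⊆ Metric.closedBall 0 R) : VE (LinearMap.range J.toLinearMap) K < ∞ := by
  rw [VE_range]
  calc ∫⁻ φ, volume (adj ((uni φ).comp J) '' K) ∂(haarU n) ≤
      ∫⁻ _, volume (Metric.closedBall (0 : Rn i) R) ∂(haarU n) := by
        apply lintegral_mono
        intro φ
        apply measure_mono
        rintro _ ⟨z, hz, rfl⟩
        rw [mem_closedBall_zero_iff]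
        exact (norm_adj_le _ z).trans (by simpa using h2 hz)
    _ = volume (Metric.closedBall (0 : Rn i) R) := by simp
    _ < ∞ := measure_closedBall_lt_top

theorem finrank_range_iso (J : Rn i →ₗᵢ[ℝ] Cn n) :
    Module.finrank ℝ (LinearMap.range J.toLinearMap) = i := by
  rw [LinearMap.finrank_range_of_inj J.injective, finrank_euclideanSpace_fin]

theorem exists_near (J : Rn i →ₗᵢ[ℝ] Cn n) (hi : i ≠ 0)
    (hJ : ¬ HasBM0 (LinearMap.range J.toLinearMap)) :
    ∃ η > 0, ∀ J' : Rn i →ₗᵢ[ℝ] Cn n, (∀ y, ‖J y - J' y‖ ≤ η * ‖y‖) →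
      ¬ HasBM (LinearMap.range J'.toLinearMap) := by
  unfold HasBM0 at hJ
  push Not at hJ
  obtain ⟨K, L, hK, hL, hK0, hL0, hlt⟩ := hJ
  rw [finrank_range_iso] at hlt
  set p : ℝ := 1 / (i : ℝ) with hp
  have hp0 : 0 ≤ p := by positivity
  obtain ⟨ρ1, hρ1, hρK⟩ : ∃ ρ > 0, Metric.closedBall 0 ρ ⊆ K :=
    Metric.nhds_basis_closedBall.mem_iff.1 (mem_interior_iff_mem_nhds.1 hK0)
  obtain ⟨ρ2, hρ2, hρL⟩ : ∃ ρ > 0, Metric.closedBall 0 ρ ⊆ L :=
    Metric.nhds_basis_closedBall.mem_iff.1 (mem_interior_iff_mem_nhds.1 hL0)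
  obtain ⟨R1, hR1, hRK⟩ := hK.compact.isBounded.subset_closedBall_lt 0 0
  obtain ⟨R2, hR2, hRL⟩ := hL.compact.isBounded.subset_closedBall_lt 0 0
  set ρ := min ρ1 ρ2 with hρdef
  have hρ : 0 < ρ := lt_min hρ1 hρ2
  set R := R1 + R2 with hRdef
  have hR : 0 ≤ R := by positivity
  have hK1 : Metric.closedBall 0 ρ ⊆ K := (Metric.closedBall_subset_closedBall (min_le_left _ _)).trans hρK
  have hL1 : Metric.closedBall 0 ρ ⊆ L := (Metric.closedBall_subset_closedBall (min_le_right _ _)).trans hρL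
  have hK2 : K ⊆ Metric.closedBall 0 R := hRK.trans (Metric.closedBall_subset_closedBall (by linarith))
  have hL2 : L ⊆ Metric.closedBall 0 R := hRL.trans (Metric.closedBall_subset_closedBall (by linarith))
  have hS1 : Metric.closedBall 0 ρ ⊆ K + L := by
    intro z hz
    exact ⟨z, hK1 hz, 0, hL1 (by simpa using hρ.le), add_zero z⟩
  have hS2 : K + L ⊆ Metric.closedBall 0 R := by
    rintro _ ⟨x, hx, y, hy, rfl⟩
    have h1 := hRK hx
    have h2 := hRL hy
    rw [mem_closedBall_zero_iff] at h1 h2 ⊢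
    exact (norm_add_le x y).trans (by linarith)
  set a := VE (LinearMap.range J.toLinearMap) K with ha
  set b := VE (LinearMap.range J.toLinearMap) L with hb
  set c := VE (LinearMap.range J.toLinearMap) (K + L) with hc
  have hc_top : c ≠ ∞ := (VE_lt_top J hS2).ne
  have hcp : c ^ p ≠ ∞ := ENNReal.rpow_ne_top_of_nonneg hp0 hc_top
  have hlim : Tendsto (fun η : ℝ => ENNReal.ofReal ((1 + η * R / ρ) ^ 2) * c ^ p) (𝓝 0)
      (𝓝 (c ^ p)) := by
    have h1 : Tendsto (fun η : ℝ => ENNReal.ofReal ((1 + η * R / ρ) ^ 2)) (𝓝 0)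
        (𝓝 (ENNReal.ofReal ((1 + 0 * R / ρ) ^ 2))) := by
      apply Continuous.tendsto
      exact ENNReal.continuous_ofReal.comp (by fun_prop)
    have h2 := ENNReal.Tendsto.mul_const h1 (b := c ^ p) (Or.inr hcp)
    simpa using h2
  obtain ⟨ε, hε, hball⟩ := Metric.eventually_nhds_iff.1 (hlim.eventually_lt_const hlt)
  refine ⟨ε / 2, by positivity, fun J' hJ' hBM => ?_⟩
  set η := ε / 2 with hη
  have hη0 : 0 ≤ η := by positivity
  have h1 : ENNReal.ofReal ((1 + η * R / ρ) ^ 2) * c ^ p < a ^ p + b ^ p := by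
    apply hball
    rw [Real.dist_eq, sub_zero, abs_of_nonneg hη0]
    linarith
  have hJ'' : ∀ y, ‖J' y - J y‖ ≤ η * ‖y‖ := fun y => by rw [norm_sub_rev]; exact hJ' y
  set a' := VE (LinearMap.range J'.toLinearMap) K
  set b' := VE (LinearMap.range J'.toLinearMap) L
  set c' := VE (LinearMap.range J'.toLinearMap) (K + L)
  set t := ENNReal.ofReal ((1 + η * R / ρ) ^ i) with ht
  have hta : a ≤ t * a' := VE_le hη0 hρ hR hJ' hK.convex hK1 hK2
  have htb : b ≤ t * b' := VE_le hη0 hρ hR hJ' hL.convex hL1 hL2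
  have htc : c' ≤ t * c := VE_le hη0 hρ hR hJ'' (hK.convex.add hL.convex) hS1 hS2
  have htp : t ^ p = ENNReal.ofReal (1 + η * R / ρ) := by
    rw [ht, ENNReal.ofReal_pow (by positivity), ← ENNReal.rpow_natCast, ← ENNReal.rpow_mul, hp,
      mul_one_div, div_self (by exact_mod_cast hi), ENNReal.rpow_one]
  have h2 : a' ^ p + b' ^ p ≤ c' ^ p := by
    have := hBM K L hK hL
    rwa [finrank_range_iso] at this
  have h3 : a ^ p + b ^ p ≤ ENNReal.ofReal ((1 + η * R / ρ) ^ 2) * c ^ p := by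
    calc a ^ p + b ^ p ≤ (t * a') ^ p + (t * b') ^ p :=
          add_le_add (ENNReal.rpow_le_rpow hta hp0) (ENNReal.rpow_le_rpow htb hp0)
      _ = t ^ p * (a' ^ p + b' ^ p) := by
          rw [ENNReal.mul_rpow_of_nonneg _ _ hp0, ENNReal.mul_rpow_of_nonneg _ _ hp0, mul_add]
      _ ≤ t ^ p * c' ^ p := by gcongr
      _ ≤ t ^ p * (t * c) ^ p := by gcongr
      _ = ENNReal.ofReal ((1 + η * R / ρ) ^ 2) * c ^ p := by
          rw [ENNReal.mul_rpow_of_nonneg _ _ hp0, htp, ← mul_assoc, ← ENNReal.ofReal_mul (by positivity)]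
          congr 2
          ring
  exact absurd h3 (not_le.2 h1)

/-- The isometry given by an orthonormal family. -/
theorem exists_iso {e : Fin i → Cn n} (he : Orthonormal ℝ e) :
    ∃ J : Rn i →ₗᵢ[ℝ] Cn n, (∀ y, J y = ∑ j, y j • e j) ∧
      LinearMap.range J.toLinearMap = Submodule.span ℝ (Set.range e) := by
  let v := (EuclideanSpace.basisFun (Fin i) ℝ).toBasis
  have hv : Orthonormal ℝ v := by
    simp only [v, OrthonormalBasis.coe_toBasis]
    exact (EuclideanSpace.basisFun (Fin i) ℝ).orthonormal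
  have hf : Orthonormal ℝ (v.constr ℝ e ∘ v) := by
    have h1 : v.constr ℝ e ∘ v = e := by
      funext j
      simp
    rw [h1]
    exact he
  refine ⟨(v.constr ℝ e).isometryOfOrthonormal hv hf, ?_, ?_⟩
  · intro y
    change v.constr ℝ e y = _
    rw [Module.Basis.constr_apply_fintype]
    rfl
  · change LinearMap.range (v.constr ℝ e) = _
    exact Module.Basis.constr_range ..

theorem near_of_orthonormal {e : Fin i → Cn n} (he : Orthonormal ℝ e) (hi : i ≠ 0)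
    (hJ : ¬ HasBM0 (Submodule.span ℝ (Set.range e))) :
    ∃ η > 0, ∀ f : Fin i → Cn n, Orthonormal ℝ f → (∀ j, ‖f j - e j‖ < η) →
      ¬ HasBM (Submodule.span ℝ (Set.range f)) := by
  obtain ⟨J, hJe, hJr⟩ := exists_iso he
  rw [← hJr] at hJ
  obtain ⟨η, hη, h⟩ := exists_near J hi hJ
  have hi' : (0 : ℝ) < i := by exact_mod_cast Nat.pos_of_ne_zero hi
  refine ⟨η / i, by positivity, fun f hf hfe => ?_⟩
  obtain ⟨J', hJf, hJ'r⟩ := exists_iso hf
  rw [← hJ'r]
  apply h J'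
  intro y
  rw [hJe, hJf, ← Finset.sum_sub_distrib]
  refine (norm_sum_le _ _).trans ?_
  have h1 : ∀ j ∈ Finset.univ, ‖y j • e j - y j • f j‖ ≤ ‖y‖ * (η / i) := by
    intro j _
    rw [← smul_sub, norm_smul, norm_sub_rev]
    exact mul_le_mul (PiLp.norm_apply_le y j) (hfe j).le (norm_nonneg _) (norm_nonneg _)
  refine (Finset.sum_le_card_nsmul _ _ _ h1).trans ?_
  rw [Finset.card_univ, Fintype.card_fin, nsmul_eq_mul]
  apply le_of_eq
  field_simp

end Pool.Agent.H61.UProj
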