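import Mathlib
import Pool.Agent.H61.UProj.Base

set_option autoImplicit false

/-!
# Unitarily averaged projections: the definitions used in the statement

The first instances only name the standard euclidean structure of `ℂⁿ` and of its real subspaces
(they are all found by `inferInstance`); this keeps the printed terms short.
-/

open MeasureTheory TopologicalSpace
open scoped ENNReal Pointwise

noncomputable section

namespace Pool.Agent.H61.UProj.Stmt

open Pool.Agent.H61.UProj

instance cnGroup (n : ℕ) : NormedAddCommGroup (Cn n) := inferInstance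

instance cnInner (n : ℕ) : InnerProductSpace ℝ (Cn n) := inferInstance

instance cnModule (n : ℕ) : Module ℝ (Cn n) := inferInstance

instance cnAddComm (n : ℕ) : AddCommMonoid (Cn n) := inferInstance

instance cnAdd (n : ℕ) : Add (Cn n) := inferInstance

instance cnTop (n : ℕ) : TopologicalSpace (Cn n) := inferInstance

/-- Real subspaces of `ℂⁿ`. -/
abbrev RSub (n : ℕ) : Type := Submodule ℝ (Cn n)

/-- A complex subspace, viewed as a real one. -/
def real {n : ℕ} (E : Submodule ℂ (Cn n)) : RSub n := E.restrictScalars ℝ

instance subGroup {n : ℕ} (F : RSub n) : NormedAddCommGroup F := inferInstance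

instance subInner {n : ℕ} (F : RSub n) : InnerProductSpace ℝ F := inferInstance

instance subMeas {n : ℕ} (F : RSub n) : MeasurableSpace F := inferInstance

instance subBorel {n : ℕ} (F : RSub n) : BorelSpace F := inferInstance

instance subFin {n : ℕ} (F : RSub n) : FiniteDimensional ℝ F := inferInstance

/-- The Lebesgue measure of the real euclidean space `F`. -/
def leb {n : ℕ} (F : RSub n) : Measure F := volume

/-- The orthogonal projection onto `F`. -/
def proj {n : ℕ} (F : RSub n) (z : Cn n) : F := F.orthogonalProjectionOnto z

/-- The Lebesgue measure, inside `F`, of the orthogonal projection of `K` onto `F`. -/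
def projVol {n : ℕ} (F : RSub n) (K : Set (Cn n)) : ℝ≥0∞ := leb F (proj F '' K)

/-- The action of a unitary matrix. -/
def act {n : ℕ} (φ : Un n) (z : Cn n) : Cn n :=
  Matrix.toEuclideanLin (φ : Matrix (Fin n) (Fin n) ℂ) z

/-- The image `φ(E)` of a real subspace under a unitary matrix (the image is a subspace, so it is
equal to its span). -/
def moved {n : ℕ} (φ : Un n) (E : RSub n) : RSub n := Submodule.span ℝ (act φ '' E)

/-- The functional `V_E(K)`: the mean of `|K | φ(E)|` over `φ ∈ U(n)`. -/
def VE {n : ℕ} (E : RSub n) (K : Set (Cn n)) : ℝ≥0∞ :=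
  ∫⁻ φ, projVol (moved φ E) K ∂(haarU n)

/-- Convex bodies: compact convex sets with nonempty interior. -/
structure IsConvexBody {n : ℕ} (K : Set (Cn n)) : Prop where
  convex : Convex ℝ K
  compact : IsCompact K
  interior_nonempty : (interior K).Nonempty

/-- The Brunn-Minkowski property of a real subspace `E` of real dimension `i`. -/
def HasBM {n : ℕ} (E : RSub n) : Prop :=
  ∀ K L : Set (Cn n), IsConvexBody K → IsConvexBody L →
    (VE E K) ^ (1 / (Module.finrank ℝ E : ℝ)) + (VE E L) ^ (1 / (Module.finrank ℝ E : ℝ)) ≤
      (VE E (K + L)) ^ (1 / (Module.finrank ℝ E : ℝ))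

end Pool.Agent.H61.UProj.Stmt
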