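import Mathlib
import Pool.Agent.H61.UProj.Near

set_option autoImplicit false

/-!
# The integrand is measurable
-/

open MeasureTheory TopologicalSpace Filter Topology
open scoped ENNReal Pointwise Matrix

noncomputable section

namespace Pool.Agent.H61.UProj

variable {n i : ℕ}

theorem usc_image {X : Type} [TopologicalSpace X] (g : X × Cn n → Rn i) (hg : Continuous g)
    {P : Set (Cn n)} (hP : IsCompact P) :
    UpperSemicontinuous (fun x => volume ((fun z => g (x, z)) '' P)) := by
  intro x y hy
  have hgx : Continuous (fun z => g (x, z)) := by fun_prop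
  have hT : IsCompact ((fun z => g (x, z)) '' P) := hP.image hgx
  have h1 := tendsto_measure_cthickening_of_isCompact (μ := volume) hT
  have h2 : ∀ᶠ r in 𝓝 (0 : ℝ), volume (Metric.cthickening r ((fun z => g (x, z)) '' P)) < y :=
    h1.eventually_lt_const hy
  obtain ⟨r, hr0, hr⟩ : ∃ r : ℝ, 0 < r ∧
      volume (Metric.cthickening r ((fun z => g (x, z)) '' P)) < y := by
    obtain ⟨ε, hε, h3⟩ := Metric.eventually_nhds_iff.1 h2
    refine ⟨ε / 2, by positivity, h3 ?_⟩
    rw [Real.dist_eq, sub_zero, abs_of_pos (by positivity)]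
    linarith
  have h4 : ∀ᶠ x' in 𝓝 x, ∀ p ∈ P, dist (g (x', p)) (g (x, p)) < r := by
    apply hP.eventually_forall_of_forall_eventually
    intro p _
    have h5 : Continuous (fun q : X × Cn n => dist (g (q.1, q.2)) (g (x, q.2))) := by fun_prop
    have h6 := h5.tendsto (x, p)
    simp only [dist_self] at h6
    exact h6.eventually_lt_const hr0
  filter_upwards [h4] with x' hx'
  refine (measure_mono ?_).trans_lt hr
  rintro _ ⟨p, hp, rfl⟩
  exact Metric.mem_cthickening_of_dist_le _ (g (x, p)) _ _ ⟨p, hp, rfl⟩ (hx' p hp).le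

theorem adj_comp (J : Rn i →ₗᵢ[ℝ] Cn n) (φ : Un n) (z : Cn n) :
    adj ((uni φ).comp J) z = adj J (ap ((φ : Matrix (Fin n) (Fin n) ℂ))ᴴ z) := by
  apply ext_inner_left ℝ
  intro y
  rw [← inner_adj, ← inner_adj]
  exact inner_isoOf _ (Matrix.mem_unitaryGroup_iff'.1 φ.2) _ _

/-- The integrand in the definition of `VE` is a measurable function on `U(n)`. -/
theorem measurable_projVol (E : Submodule ℝ (Cn n)) {K : Set (Cn n)} (hK : IsCompact K) :
    Measurable (fun φ : Un n => projVol (moved φ E) K) := by
  let b := stdOrthonormalBasis ℝ E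
  have he : Orthonormal ℝ (fun j => (b j : Cn n)) := b.orthonormal.comp_linearIsometry E.subtypeₗᵢ
  obtain ⟨J, -, hJ⟩ := exists_iso he
  have hE : Submodule.span ℝ (Set.range fun j => (b j : Cn n)) = E := by
    have h1 : (Set.range fun j => (b j : Cn n)) = E.subtype '' (Set.range b) := by
      rw [← Set.range_comp]
      rfl
    rw [h1, Submodule.span_image]
    have h2 : Submodule.span ℝ (Set.range b) = ⊤ := by
      rw [← OrthonormalBasis.coe_toBasis]
      exact b.toBasis.span_eq
    rw [h2, Submodule.map_subtype_top]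
  rw [hE] at hJ
  have h3 : ∀ φ : Un n, projVol (moved φ E) K =
      volume ((fun z => adj J (ap ((φ : Matrix (Fin n) (Fin n) ℂ))ᴴ z)) '' K) := by
    intro φ
    have h4 : moved φ E = LinearMap.range ((uni φ).comp J).toLinearMap := by
      rw [← moved_range J φ, hJ]
    rw [projVol_eq ((uni φ).comp J) _ (inner_adj _) _ h4 K]
    congr 1
    exact Set.image_congr fun z _ => adj_comp J φ z
  simp only [h3]
  refine (usc_image (fun q : Un n × Cn n =>
    adj J (ap ((q.1 : Matrix (Fin n) (Fin n) ℂ))ᴴ q.2)) ?_ hK).measurable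
  refine (adj J).continuous.comp ?_
  exact continuous_ap_pair (f := fun φ : Un n => ((φ : Matrix (Fin n) (Fin n) ℂ))ᴴ)
    (continuous_subtype_val.matrix_conjTranspose)

end Pool.Agent.H61.UProj
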