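import Mathlib
import Pool.Agent.H61.UProj.Defs
import Pool.Agent.H61.UProj.Stmt

set_option autoImplicit false

/-!
# The two versions of the definitions agree
-/

open MeasureTheory TopologicalSpace
open scoped ENNReal Pointwise

noncomputable section

namespace Pool.Agent.H61.UProj.Stmt

open Pool.Agent.H61.UProj

theorem moved_eq {n : ℕ} (φ : Un n) (E : RSub n) : moved φ E = Pool.Agent.H61.UProj.moved φ E := by
  unfold moved
  have h : act φ '' E = ((Pool.Agent.H61.UProj.moved φ E : Submodule ℝ (Cn n)) : Set (Cn n)) := by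
    rfl
  rw [h]
  exact Submodule.span_eq _

theorem moved_coe {n : ℕ} (φ : Un n) (E : RSub n) : (moved φ E : Set (Cn n)) = act φ '' E := by
  rw [moved_eq]
  rfl

theorem projVol_eq {n : ℕ} (F : RSub n) (K : Set (Cn n)) :
    projVol F K = Pool.Agent.H61.UProj.projVol F K := rfl

theorem VE_eq {n : ℕ} (E : RSub n) (K : Set (Cn n)) : VE E K = Pool.Agent.H61.UProj.VE E K := by
  unfold VE Pool.Agent.H61.UProj.VE
  refine lintegral_congr fun φ => ?_
  rw [projVol_eq, moved_eq]

theorem hasBM_iff {n : ℕ} (E : RSub n) : HasBM E ↔ Pool.Agent.H61.UProj.HasBM E := by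
  unfold HasBM Pool.Agent.H61.UProj.HasBM
  simp only [VE_eq]
  constructor
  · intro h K L hK hL
    exact h K L ⟨hK.1, hK.2, hK.3⟩ ⟨hL.1, hL.2, hL.3⟩
  · intro h K L hK hL
    exact h K L ⟨hK.1, hK.2, hK.3⟩ ⟨hL.1, hL.2, hL.3⟩

end Pool.Agent.H61.UProj.Stmt
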